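import Pool.Agent.H58.AE.SEQ

set_option autoImplicit false

/-!
MODULE ARI.  Cardinal arithmetic at a singular cardinal `κ`, `μ = cof κ < κ`.

Let `s` be the sequence of `exists_seq` (with `φ = id`), indexed by `i < m = μ.ord`.

`arith1`: suppose `τ < κ` and `2 ^ τ = 2 ^< κ` (`2 ^ τ ≤ 2 ^< κ` always, `Cardinal.le_powerlt`);
enlarging `τ` (`2 ^ τ' = 2 ^< κ` for all `τ ≤ τ' < κ`) we may assume `ℵ₀ ≤ τ` and `μ ≤ τ`.
`κ ≤ sum over i < m of s i` (a sum bigger than every `τ' < κ`, `κ` limit), so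
`2 ^ κ ≤ 2 ^ (sum s i) = prod 2 ^ (s i)` (`Cardinal.power_sum`-type lemma; or directly: the map
sending a function on `κ` to its restrictions) `≤ prod 2 ^ τ = (2 ^ τ) ^ μ = 2 ^ (τ * μ) = 2 ^ τ
= 2 ^< κ < succ (2 ^< κ) = 2 ^ κ`, contradiction.

`attained`: suppose `2 ^ τ < 2 ^ κ` for all infinite `τ < κ` (hence for all `τ < κ`).  Then
`2 ^ κ = 2 ^< κ = sup over i < m of 2 ^ (s i)`, all `2 ^ (s i) < 2 ^ κ`, and `#m = μ < κ`, so
`cof (2 ^ κ).ord ≤ μ` (`Cardinal.iSup_lt_of_lt_cof_ord`), but `κ < cof (2 ^ κ).ord` by König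
(`Cardinal.lt_cof_power`/`lt_cof_ord_power`), and `μ < κ`.
-/

namespace Pool.H58.AE

open Cardinal Ordinal Set

theorem arith1 (κ : Cardinal.{0}) (hκ : ℵ₀ ≤ κ) (hsing : κ.ord.cof < κ)
    (h : (2 : Cardinal.{0}) ^ κ = Order.succ ((2 : Cardinal.{0}) ^< κ)) :
    ∀ τ < κ, (2 : Cardinal.{0}) ^ τ < (2 : Cardinal.{0}) ^< κ := by
  intro τ hτ
  by_contra hcon
  rw [not_lt] at hcon
  obtain ⟨s, hs0, -, hs2⟩ := exists_seq κ hκ hsing id (fun τ hτ => hτ)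
  have h0 : ℵ₀ < κ := by
    rcases hκ.lt_or_eq with h | h
    · exact h
    · exfalso
      rw [← h, Cardinal.isRegular_aleph0.cof_ord] at hsing
      exact lt_irrefl _ hsing
  obtain ⟨σ, hσ⟩ : ∃ σ, σ = max τ (max ℵ₀ κ.ord.cof) := ⟨_, rfl⟩
  have hσκ : σ < κ := by rw [hσ]; exact max_lt hτ (max_lt h0 hsing)
  have hσ0 : ℵ₀ ≤ σ := by rw [hσ]; exact (le_max_left _ _).trans (le_max_right _ _)
  have hσμ : κ.ord.cof ≤ σ := by rw [hσ]; exact (le_max_right _ _).trans (le_max_right _ _)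
  have hτσ : τ ≤ σ := by rw [hσ]; exact le_max_left _ _
  have hσ2 : (2 : Cardinal.{0}) ^< κ ≤ 2 ^ σ :=
    hcon.trans (Cardinal.power_le_power_left two_ne_zero hτσ)
  let f : κ.ord.cof.ord.ToType → Cardinal.{0} := fun i => s (Ordinal.ToType.toOrd i).1
  have hsum : κ ≤ Cardinal.sum f := by
    by_contra hlt
    rw [not_le] at hlt
    obtain ⟨i, hi, h1⟩ := hs2 _ hlt
    have h2 : f (Ordinal.ToType.mk ⟨i, hi⟩) ≤ Cardinal.sum f := Cardinal.le_sum f _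
    have h3 : f (Ordinal.ToType.mk ⟨i, hi⟩) = s i := by simp [f]
    rw [h3] at h2
    exact absurd h1 (not_lt.mpr h2)
  have h1 : (2 : Cardinal.{0}) ^ κ ≤ (2 : Cardinal.{0}) ^ σ := by
    calc (2 : Cardinal.{0}) ^ κ ≤ 2 ^ (Cardinal.sum f) :=
          Cardinal.power_le_power_left two_ne_zero hsum
      _ = Cardinal.prod (fun i => (2 : Cardinal.{0}) ^ f i) := Cardinal.power_sum _ _
      _ ≤ Cardinal.prod (fun _ : κ.ord.cof.ord.ToType => (2 : Cardinal.{0}) ^ σ) := by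
          apply Cardinal.prod_le_prod
          intro i
          have h2 : f i < κ := (hs0 _ (Ordinal.ToType.toOrd i).2).2
          exact (Cardinal.le_powerlt 2 h2).trans hσ2
      _ = ((2 : Cardinal.{0}) ^ σ) ^ κ.ord.cof := by
          rw [Cardinal.prod_const', Cardinal.mk_toType, Cardinal.card_ord]
      _ = (2 : Cardinal.{0}) ^ (σ * κ.ord.cof) := by rw [Cardinal.power_mul]
      _ ≤ (2 : Cardinal.{0}) ^ σ := by
          apply Cardinal.power_le_power_left two_ne_zero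
          exact Cardinal.mul_le_of_le hσ0 le_rfl hσμ
  have h2 : (2 : Cardinal.{0}) ^ κ ≤ (2 : Cardinal.{0}) ^< κ := h1.trans (Cardinal.le_powerlt 2 hσκ)
  rw [h] at h2
  exact absurd (Order.lt_succ ((2 : Cardinal.{0}) ^< κ)) (not_lt.mpr h2)

theorem attained (κ : Cardinal.{0}) (hκ : ℵ₀ ≤ κ) (hsing : κ.ord.cof < κ)
    (h : (2 : Cardinal.{0}) ^ κ = (2 : Cardinal.{0}) ^< κ) :
    ∃ τ < κ, ℵ₀ ≤ τ ∧ (2 : Cardinal.{0}) ^ κ ≤ (2 : Cardinal.{0}) ^ τ := by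
  by_contra hcon
  push Not at hcon
  obtain ⟨s, hs0, -, hs2⟩ := exists_seq κ hκ hsing id (fun τ hτ => hτ)
  let f : κ.ord.cof.ord.ToType → Cardinal.{0} :=
    fun i => (2 : Cardinal.{0}) ^ s (Ordinal.ToType.toOrd i).1
  have h1 : ⨆ i, f i < (2 : Cardinal.{0}) ^ κ := by
    apply Cardinal.iSup_lt_of_lt_cof_ord
    · rw [Cardinal.mk_toType, Cardinal.card_ord]
      exact hsing.trans (Cardinal.lt_cof_ord_power hκ (by norm_num))
    · intro i
      have hi : (Ordinal.ToType.toOrd i).1 < κ.ord.cof.ord := (Ordinal.ToType.toOrd i).2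
      obtain ⟨h2, h3⟩ := hs0 _ hi
      exact hcon _ h3 h2
  have h2 : (2 : Cardinal.{0}) ^< κ ≤ ⨆ i, f i := by
    rw [Cardinal.powerlt_le]
    intro τ hτ
    obtain ⟨i, hi, h3⟩ := hs2 τ hτ
    have h4 : f (Ordinal.ToType.mk ⟨i, hi⟩) = (2 : Cardinal.{0}) ^ s i := by simp [f]
    have h5 : f (Ordinal.ToType.mk ⟨i, hi⟩) ≤ ⨆ i, f i :=
      le_ciSup Cardinal.bddAbove_of_small _
    rw [h4] at h5
    exact (Cardinal.power_le_power_left two_ne_zero h3.le).trans h5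
  rw [h] at h1
  exact absurd h1 (not_lt.mpr h2)

end Pool.H58.AE
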