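import Pool.Agent.H58.AE.Defs

set_option autoImplicit false

/-!
MODULE COM.  Combining colourings.

`combine`: fix an injection `e : K × ι → ι` (`#(K × ι) = #K * #ι ≤ #ι`, `ι` infinite).  Colour
`x y z` by `none` if all `c k x y z = none`, and otherwise by `e (k, i)`, where `k` is a chosen index
with `c k x y z ≠ none` and `c k x y z = some i`.  If a quadruple is homogeneous in colour
`e (k, i)`, it is homogeneous for `c k` in colour `i`.
`relabel`: compose with an injection.
-/

namespace Pool.H58.AE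

open Cardinal Ordinal Set

/-- the chosen coloured index and its colour -/
noncomputable def com_pick {ι K : Type}
    (c : K → Ordinal.{0} → Ordinal.{0} → Ordinal.{0} → Option ι) (x y z : Ordinal.{0}) :
    Option (K × ι) :=
  open Classical in
  if h : ∃ p : K × ι, c p.1 x y z = some p.2 then some h.choose else none

theorem com_pick_some {ι K : Type}
    {c : K → Ordinal.{0} → Ordinal.{0} → Ordinal.{0} → Option ι} {x y z : Ordinal.{0}}
    {p : K × ι} (h : com_pick c x y z = some p) : c p.1 x y z = some p.2 := by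
  unfold com_pick at h
  split_ifs at h with h1
  have := h1.choose_spec
  rw [Option.some.inj h] at this
  exact this

theorem com_pick_none {ι K : Type}
    {c : K → Ordinal.{0} → Ordinal.{0} → Ordinal.{0} → Option ι} {x y z : Ordinal.{0}}
    (h : com_pick c x y z = none) (k : K) : c k x y z = none := by
  unfold com_pick at h
  split_ifs at h with h1
  cases hk : c k x y z with
  | none => rfl
  | some i => exact absurd ⟨(k, i), hk⟩ h1

theorem relabel {J ι : Type} (f : J → ι) (hf : Function.Injective f)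
    (c : Ordinal.{0} → Ordinal.{0} → Ordinal.{0} → Option J) (hc : Free4 c) :
    ∃ d : Ordinal.{0} → Ordinal.{0} → Ordinal.{0} → Option ι, Free4 d ∧
      ∀ X : Set Ordinal.{0}, Hom0 d X → Hom0 c X := by
  refine ⟨fun x y z => (c x y z).map f, ?_, ?_⟩
  · rintro w x y z i hwx hxy hyz ⟨h1, h2, h3, h4⟩
    obtain ⟨j1, hj1, e1⟩ := Option.map_eq_some_iff.mp h1
    obtain ⟨j2, hj2, e2⟩ := Option.map_eq_some_iff.mp h2
    obtain ⟨j3, hj3, e3⟩ := Option.map_eq_some_iff.mp h3
    obtain ⟨j4, hj4, e4⟩ := Option.map_eq_some_iff.mp h4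
    have a2 : j2 = j1 := hf (e2.trans e1.symm)
    have a3 : j3 = j1 := hf (e3.trans e1.symm)
    have a4 : j4 = j1 := hf (e4.trans e1.symm)
    subst a2
    subst a3
    subst a4
    exact hc w x y z _ hwx hxy hyz ⟨hj1, hj2, hj3, hj4⟩
  · intro X hX x hx y hy z hz hxy hyz
    exact Option.map_eq_none_iff.mp (hX x hx y hy z hz hxy hyz)

theorem com_free {ι K : Type}
    (c : K → Ordinal.{0} → Ordinal.{0} → Ordinal.{0} → Option ι) (hc : ∀ k, Free4 (c k)) :
    Free4 (com_pick c) := by
  rintro w x y z p hwx hxy hyz ⟨h1, h2, h3, h4⟩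
  exact hc p.1 w x y z p.2 hwx hxy hyz
    ⟨com_pick_some h1, com_pick_some h2, com_pick_some h3, com_pick_some h4⟩

theorem combine {ι K : Type} [Infinite ι] (hK : Cardinal.mk K ≤ Cardinal.mk ι)
    (c : K → Ordinal.{0} → Ordinal.{0} → Ordinal.{0} → Option ι) (hc : ∀ k, Free4 (c k)) :
    ∃ d : Ordinal.{0} → Ordinal.{0} → Ordinal.{0} → Option ι, Free4 d ∧
      ∀ X : Set Ordinal.{0}, Hom0 d X → ∀ k, Hom0 (c k) X := by
  have h1 : Cardinal.mk (K × ι) ≤ Cardinal.mk ι := by
    rw [Cardinal.mk_prod, Cardinal.lift_id, Cardinal.lift_id]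
    calc Cardinal.mk K * Cardinal.mk ι ≤ Cardinal.mk ι * Cardinal.mk ι :=
          mul_le_mul_left hK _
      _ = Cardinal.mk ι := Cardinal.mul_eq_self (Cardinal.aleph0_le_mk ι)
  obtain ⟨e⟩ := h1
  obtain ⟨d, hd, hX⟩ := relabel (ι := ι) e e.injective (com_pick c) (com_free c hc)
  refine ⟨d, hd, fun X hX1 k x hx y hy z hz hxy hyz => ?_⟩
  exact com_pick_none (hX X hX1 x hx y hy z hz hxy hyz) k

end Pool.H58.AE
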