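import Pool.Agent.H58.AE.LEX

set_option autoImplicit false

/-!
MODULE PAT.  The pattern colouring.

`Lx` is irreflexive, transitive, asymmetric; two functions which differ are comparable (take the
least difference).
`pat_free`: let `w < x < y < z` with all four triples coloured.  `(w,x,y)`: `y` is between `w` and
`x` (lexicographically, for the functions `F`); `(w,y,z)`: `z` is between `w` and `y`; `(x,y,z)`: `z`
is between `x` and `y`.  If `w < y < x` (lex): `w < z < y` and `y < z < x`, contradiction (the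
other possibilities `y < z < w`, `x < z < y` contradict `w < y`, `y < x`); similarly if `x < y < w`.
`pat_small`: let `Up = {z ∈ X | ∀ x ∈ X, x < z → Lx (F x) (F z)}`,
`Dn = {z ∈ X | ∀ x ∈ X, x < z → Lx (F z) (F x)}`.  `X ⊆ Up ∪ Dn`: if `z ∈ X` is in neither, there are
`x, y ∈ X` below `z` with `Lx (F z) (F x)` and `Lx (F y) (F z)` (comparability); `x ≠ y`, and the
triple of `x, y, z` (in increasing order) is coloured.  For `a < b` in `Up` the first difference is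
`< τ` (they differ below `τ`), so `lex_up` applies with `A = Up`: `#Up ≤ lift θ`; `lex_down` for
`Dn`; and `lift θ + lift θ = lift θ`.
-/

namespace Pool.H58.AE

open Cardinal Ordinal Set

theorem pat_lx_irrefl (f : Ordinal.{0} → Bool) : ¬ Lx f f := by
  rintro ⟨i, -, h1, h2⟩
  rw [h1] at h2
  exact Bool.noConfusion h2

theorem pat_lx_trans {f g h : Ordinal.{0} → Bool} (h1 : Lx f g) (h2 : Lx g h) : Lx f h := by
  obtain ⟨i, hi, hi1, hi2⟩ := h1
  obtain ⟨j, hj, hj1, hj2⟩ := h2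
  rcases lt_trichotomy i j with hij | hij | hij
  · refine ⟨i, fun k hk => (hi k hk).trans (hj k (hk.trans hij)), hi1, ?_⟩
    rw [← hj i hij]
    exact hi2
  · subst hij
    rw [hi2] at hj1
    exact Bool.noConfusion hj1
  · refine ⟨j, fun k hk => (hi k (hk.trans hij)).trans (hj k hk), ?_, hj2⟩
    rw [hi j hij]
    exact hj1

theorem pat_lx_asymm {f g : Ordinal.{0} → Bool} (h1 : Lx f g) : ¬ Lx g f :=
  fun h2 => pat_lx_irrefl f (pat_lx_trans h1 h2)

theorem pat_lx_tot {f g : Ordinal.{0} → Bool} (h : ∃ i, f i ≠ g i) : Lx f g ∨ Lx g f := by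
  obtain ⟨i, hi, hmin⟩ := WellFounded.has_min (wellFounded_lt (α := Ordinal.{0}))
    {i : Ordinal.{0} | f i ≠ g i} h
  have hj : ∀ j < i, f j = g j := by
    intro j hj
    by_contra h1
    exact hmin j h1 hj
  have hi' : f i ≠ g i := hi
  cases hf : f i with
  | false =>
    refine Or.inl ⟨i, hj, hf, ?_⟩
    rw [hf] at hi'
    cases hg : g i with
    | false => exact absurd hg.symm hi'
    | true => rfl
  | true =>
    refine Or.inr ⟨i, fun j h1 => (hj j h1).symm, ?_, hf⟩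
    rw [hf] at hi'
    cases hg : g i with
    | false => rfl
    | true => exact absurd hg.symm hi'

theorem pat_some (F : Ordinal.{0} → Ordinal.{0} → Bool) {x y z : Ordinal.{0}} {i : Unit}
    (h : pat F x y z = some i) :
    (Lx (F x) (F z) ∧ Lx (F z) (F y)) ∨ (Lx (F y) (F z) ∧ Lx (F z) (F x)) := by
  unfold pat at h
  by_contra h1
  rw [if_neg h1] at h
  exact nomatch h

theorem pat_none (F : Ordinal.{0} → Ordinal.{0} → Bool) {x y z : Ordinal.{0}}
    (h : pat F x y z = none) :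
    ¬ ((Lx (F x) (F z) ∧ Lx (F z) (F y)) ∨ (Lx (F y) (F z) ∧ Lx (F z) (F x))) := by
  unfold pat at h
  intro h1
  rw [if_pos h1] at h
  exact nomatch h

theorem pat_free (F : Ordinal.{0} → Ordinal.{0} → Bool) : Free4 (pat F) := by
  rintro w x y z i - - - ⟨h1, -, h3, h4⟩
  have h1' := pat_some F h1
  have h3' := pat_some F h3
  have h4' := pat_some F h4
  rcases h1' with ⟨a1, a2⟩ | ⟨a1, a2⟩
  · -- w < y < x
    rcases h3' with ⟨b1, b2⟩ | ⟨b1, b2⟩
    · rcases h4' with ⟨c1, c2⟩ | ⟨c1, c2⟩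
      · exact pat_lx_asymm a2 (pat_lx_trans c1 c2)
      · exact pat_lx_asymm b2 c1
    · exact pat_lx_asymm a1 (pat_lx_trans b1 b2)
  · -- x < y < w
    rcases h3' with ⟨b1, b2⟩ | ⟨b1, b2⟩
    · exact pat_lx_asymm a2 (pat_lx_trans b1 b2)
    · rcases h4' with ⟨c1, c2⟩ | ⟨c1, c2⟩
      · exact pat_lx_asymm b1 c2
      · exact pat_lx_asymm a1 (pat_lx_trans c1 c2)

theorem pat_small (F : Ordinal.{0} → Ordinal.{0} → Bool) (X : Set Ordinal.{0})
    (τ : Ordinal.{0}) (θ : Cardinal.{0}) (hθ : ℵ₀ ≤ θ) (hτ : τ.card ≤ θ)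
    (hinj : ∀ x ∈ X, ∀ y ∈ X, x < y → ∃ i < τ, F x i ≠ F y i) (hX : Hom0 (pat F) X) :
    Cardinal.mk X ≤ Cardinal.lift.{1} θ := by
  have hθ' : ℵ₀ ≤ Cardinal.lift.{1} θ := by
    rw [← Cardinal.lift_aleph0.{1, 0}]
    exact Cardinal.lift_le.mpr hθ
  have hlt : ∀ a ∈ X, ∀ b ∈ X, a < b → ∀ i, (∀ j < i, F a j = F b j) → F a i ≠ F b i →
      i < τ := by
    intro a ha b hb hab i hi hne
    obtain ⟨j, hj, hj'⟩ := hinj a ha b hb hab
    by_contra h1
    exact hj' (hi j (hj.trans_le (not_lt.mp h1)))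
  have hup : Cardinal.mk {z : Ordinal.{0} | z ∈ X ∧ ∀ x ∈ X, x < z → Lx (F x) (F z)} ≤
      Cardinal.lift.{1} θ := by
    refine lex_up θ hθ τ hτ _ F ?_
    rintro a ⟨ha, -⟩ b ⟨hb, hb'⟩ hab
    obtain ⟨i, h1, h2, h3⟩ := hb' a ha hab
    refine ⟨i, hlt a ha b hb hab i h1 ?_, h1, h2, h3⟩
    rw [h2, h3]
    exact Bool.noConfusion
  have hdn : Cardinal.mk {z : Ordinal.{0} | z ∈ X ∧ ∀ x ∈ X, x < z → Lx (F z) (F x)} ≤
      Cardinal.lift.{1} θ := by
    refine lex_down θ hθ τ hτ _ F ?_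
    rintro a ⟨ha, -⟩ b ⟨hb, hb'⟩ hab
    obtain ⟨i, h1, h2, h3⟩ := hb' a ha hab
    refine ⟨i, hlt a ha b hb hab i (fun j hj => (h1 j hj).symm) ?_,
      fun j hj => (h1 j hj).symm, h3, h2⟩
    rw [h2, h3]
    exact Bool.noConfusion
  have hsub : X ⊆ {z : Ordinal.{0} | z ∈ X ∧ ∀ x ∈ X, x < z → Lx (F x) (F z)} ∪
      {z : Ordinal.{0} | z ∈ X ∧ ∀ x ∈ X, x < z → Lx (F z) (F x)} := by
    intro z hz
    by_contra hcon
    rw [Set.mem_union, not_or] at hcon
    obtain ⟨h1, h2⟩ := hcon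
    have h1' : ∃ x ∈ X, x < z ∧ Lx (F z) (F x) := by
      by_contra h3
      push Not at h3
      refine h1 ⟨hz, fun x hx hxz => ?_⟩
      obtain ⟨i, -, hi⟩ := hinj x hx z hz hxz
      exact (pat_lx_tot ⟨i, hi⟩).resolve_right (h3 x hx hxz)
    have h2' : ∃ x ∈ X, x < z ∧ Lx (F x) (F z) := by
      by_contra h3
      push Not at h3
      refine h2 ⟨hz, fun x hx hxz => ?_⟩
      obtain ⟨i, -, hi⟩ := hinj x hx z hz hxz
      exact (pat_lx_tot ⟨i, hi⟩).resolve_left (h3 x hx hxz)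
    obtain ⟨x, hx, hxz, hx'⟩ := h1'
    obtain ⟨y, hy, hyz, hy'⟩ := h2'
    rcases lt_trichotomy x y with hxy | hxy | hxy
    · exact pat_none F (hX x hx y hy z hz hxy hyz) (Or.inr ⟨hy', hx'⟩)
    · subst hxy
      exact pat_lx_asymm hx' hy'
    · exact pat_none F (hX y hy x hx z hz hxy hxz) (Or.inl ⟨hy', hx'⟩)
  refine (Cardinal.mk_le_mk_of_subset hsub).trans ?_
  exact (Cardinal.mk_union_le _ _).trans (Cardinal.add_le_of_le hθ' hup hdn)

end Pool.H58.AE
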