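import Pool.Agent.H58.AE.Defs

set_option autoImplicit false

/-!
MODULE STA.  Star colourings and difference colourings have no coloured homogeneous quadruple.

`star1_free`: for `w < x < y < z` in colour `i`: `(w,x,z)`, `(w,y,z)`, `(x,y,z)` give
`G (P z w) (P z x) = G (P z w) (P z y) = G (P z x) (P z y) = some i`, against `hG.tri`.
`star2_free`: `(w,x,y)`, `(w,x,z)`, `(w,y,z)` give `G (P x w) (P y w) = G (P x w) (P z w) =
G (P y w) (P z w) = some i`.
`del1_free`: `(w,x,y)` and `(x,y,z)` in colour `(ξ, e)`: `a w x ξ = e`, `a w x ξ ≠ a x y ξ` and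
`a x y ξ = e`.  `del2_free`: `(w,x,y)`, `(w,y,z)` in colour `(ξ, e)`: `a w x ξ = e ≠ a w y ξ`, and
`a w y ξ = e`.
`del_const`: on a triple `u < x < y` of `X`: `a u x = a x y` (del1), `a u x = a u y` (del2).
For pairs `x < y`, `x' < y'` let `u = min x x'`; `a x y = a u y` (equal if `u = x`), `a x' y' = a u y'`,
and `a u y = a u y'` (del2 for `u, y, y'`).
-/

namespace Pool.H58.AE

open Cardinal Ordinal Set

theorem star1_free {ι : Type} {m : Ordinal.{0}} {G : Ordinal.{0} → Ordinal.{0} → Option ι}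
    (hG : PairCol m G) (P : Ordinal.{0} → Ordinal.{0} → Ordinal.{0}) : Free4 (star1 G P) := by
  intro w x y z i hwx hxy hyz h
  exact hG.tri (P z w) (P z x) (P z y) i ⟨h.2.1, h.2.2.1, h.2.2.2⟩

theorem star2_free {ι : Type} {m : Ordinal.{0}} {G : Ordinal.{0} → Ordinal.{0} → Option ι}
    (hG : PairCol m G) (P : Ordinal.{0} → Ordinal.{0} → Ordinal.{0}) : Free4 (star2 G P) := by
  intro w x y z i hwx hxy hyz h
  exact hG.tri (P x w) (P y w) (P z w) i ⟨h.1, h.2.1, h.2.2.1⟩

open Classical in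
/-- difference colouring of `a x y` and `a y z` -/
noncomputable def del1 {J : Type} (a : Ordinal.{0} → Ordinal.{0} → J → Bool)
    (x y z : Ordinal.{0}) : Option (J × Bool) :=
  if h : ∃ ξ, a x y ξ ≠ a y z ξ then some (h.choose, a x y h.choose) else none

open Classical in
/-- difference colouring of `a x y` and `a x z` -/
noncomputable def del2 {J : Type} (a : Ordinal.{0} → Ordinal.{0} → J → Bool)
    (x y z : Ordinal.{0}) : Option (J × Bool) :=
  if h : ∃ ξ, a x y ξ ≠ a x z ξ then some (h.choose, a x y h.choose) else none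

theorem STA_del1_some {J : Type} {a : Ordinal.{0} → Ordinal.{0} → J → Bool}
    {x y z : Ordinal.{0}} {ξ : J} {e : Bool} (h : del1 a x y z = some (ξ, e)) :
    a x y ξ = e ∧ a x y ξ ≠ a y z ξ := by
  unfold del1 at h
  split_ifs at h with hx
  have h1 := Option.some.inj h
  have h2 : hx.choose = ξ := congrArg Prod.fst h1
  have h3 : a x y hx.choose = e := congrArg Prod.snd h1
  have h4 := hx.choose_spec
  rw [h2] at h3 h4
  exact ⟨h3, h4⟩

theorem STA_del2_some {J : Type} {a : Ordinal.{0} → Ordinal.{0} → J → Bool}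
    {x y z : Ordinal.{0}} {ξ : J} {e : Bool} (h : del2 a x y z = some (ξ, e)) :
    a x y ξ = e ∧ a x y ξ ≠ a x z ξ := by
  unfold del2 at h
  split_ifs at h with hx
  have h1 := Option.some.inj h
  have h2 : hx.choose = ξ := congrArg Prod.fst h1
  have h3 : a x y hx.choose = e := congrArg Prod.snd h1
  have h4 := hx.choose_spec
  rw [h2] at h3 h4
  exact ⟨h3, h4⟩

theorem STA_del1_none {J : Type} {a : Ordinal.{0} → Ordinal.{0} → J → Bool}
    {x y z : Ordinal.{0}} (h : del1 a x y z = none) : a x y = a y z := by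
  unfold del1 at h
  split_ifs at h with hx
  funext ξ
  by_contra hne
  exact hx ⟨ξ, hne⟩

theorem STA_del2_none {J : Type} {a : Ordinal.{0} → Ordinal.{0} → J → Bool}
    {x y z : Ordinal.{0}} (h : del2 a x y z = none) : a x y = a x z := by
  unfold del2 at h
  split_ifs at h with hx
  funext ξ
  by_contra hne
  exact hx ⟨ξ, hne⟩

theorem del1_free {J : Type} (a : Ordinal.{0} → Ordinal.{0} → J → Bool) : Free4 (del1 a) := by
  rintro w x y z ⟨ξ, e⟩ hwx hxy hyz ⟨h1, -, -, h4⟩
  have k1 := STA_del1_some h1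
  have k4 := STA_del1_some h4
  exact k1.2 (k1.1.trans k4.1.symm)

theorem del2_free {J : Type} (a : Ordinal.{0} → Ordinal.{0} → J → Bool) : Free4 (del2 a) := by
  rintro w x y z ⟨ξ, e⟩ hwx hxy hyz ⟨h1, -, h3, -⟩
  have k1 := STA_del2_some h1
  have k3 := STA_del2_some h3
  exact k1.2 (k1.1.trans k3.1.symm)

theorem del_const {J : Type} (a : Ordinal.{0} → Ordinal.{0} → J → Bool) (X : Set Ordinal.{0})
    (h1 : Hom0 (del1 a) X) (h2 : Hom0 (del2 a) X) :
    ∀ x ∈ X, ∀ y ∈ X, ∀ x' ∈ X, ∀ y' ∈ X, x < y → x' < y' → a x y = a x' y' := by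
  have key1 : ∀ u ∈ X, ∀ x ∈ X, ∀ y ∈ X, u < x → x < y → a u x = a x y :=
    fun u hu x hx y hy hux hxy => STA_del1_none (h1 u hu x hx y hy hux hxy)
  have key2 : ∀ u ∈ X, ∀ x ∈ X, ∀ y ∈ X, u < x → x < y → a u x = a u y :=
    fun u hu x hx y hy hux hxy => STA_del2_none (h2 u hu x hx y hy hux hxy)
  have key3 : ∀ u ∈ X, ∀ x ∈ X, ∀ y ∈ X, u < x → u < y → a u x = a u y := by
    intro u hu x hx y hy hux huy
    rcases lt_trichotomy x y with h | h | h
    · exact key2 u hu x hx y hy hux h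
    · rw [h]
    · exact (key2 u hu y hy x hx huy h).symm
  have key4 : ∀ u ∈ X, ∀ x ∈ X, ∀ y ∈ X, u ≤ x → x < y → a x y = a u y := by
    intro u hu x hx y hy hux hxy
    rcases hux.eq_or_lt with h | h
    · rw [h]
    · rw [← key1 u hu x hx y hy h hxy]
      exact key2 u hu x hx y hy h hxy
  intro x hx y hy x' hx' y' hy' hxy hxy'
  rcases le_total x x' with h | h
  · rw [key4 x hx x' hx' y' hy' h hxy']
    exact key3 x hx y hy y' hy' hxy (lt_of_le_of_lt h hxy')
  · rw [key4 x' hx' x hx y hy h hxy]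
    exact key3 x' hx' y hy y' hy' (lt_of_le_of_lt h hxy) hxy'

end Pool.H58.AE
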