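import Pool.Agent.H58.AE.SEQ
import Pool.Agent.H58.AE.PAT
import Pool.Agent.H58.AE.STA
import Pool.Agent.H58.AE.COM

set_option autoImplicit false

/-!
MODULE CAS.  The two known cases.

`exists_fun`: if `θ ≤ 2 ^ τ` there is an injection of `Iio θ.ord` (cardinality `lift θ`) into
`Set.Iio τ.ord → Bool` or `τ.ord.ToType → Bool` (cardinality `2 ^ τ`); extend the functions by `false`.

`kills_att`: with `F` from `exists_fun` for `θ = 2 ^ κ ≤ 2 ^ τ`, colour by `pat F`, relabelled by a map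
`Unit → ι` (`ι` infinite, so nonempty).  A `Hom0` set `X` has `#X ≤ lift τ < lift κ` by
`pat_small` (`τ.ord.card = τ`).

`kills_small`: let `s` be from `exists_seq` (`φ = id`), `m = κ.ord.cof.ord`, and `F` from `exists_fun`
for `θ = 2 ^ κ`, `τ = κ`.  For `x < y` below `(2 ^ κ).ord` let `h(x, y) < m` be the least `i` such that
`∃ j < (s i).ord, F x j ≠ F y j` (it exists: they differ at some `j < κ.ord`, `j.card < κ`, and
`j.card < s i` for some `i < m`).  As `κ.ord.cof ≤ 2 ^ #ι` there is an injection `code` of `Iio m` into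
`ι → Bool`; put `a x y = code (h(x, y))`.  Combine (`combine` with `K = Fin 3` or `Option Bool`, and
`relabel` for `ι × Bool → ι`, `Unit → ι`) the colourings `del1 a`, `del2 a`, `pat F`.  For a `Hom0` set
`X`: `a` is constant on the pairs of `X` (`del_const`), so `h(x, y) = i` for all `x < y` in `X`
(if `X` has at least two elements; otherwise `#X ≤ 1 < lift κ`), and `pat_small` with
`τ = (s i).ord` gives `#X ≤ lift (s i) < lift κ`.
-/

namespace Pool.H58.AE

open Cardinal Ordinal Set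

theorem exists_fun {θ τ : Cardinal.{0}} (h : θ ≤ (2 : Cardinal.{0}) ^ τ) :
    ∃ F : Ordinal.{0} → Ordinal.{0} → Bool, ∀ x < θ.ord, ∀ y < θ.ord, x ≠ y →
      ∃ i < τ.ord, F x i ≠ F y i := by
  classical
  have h1 : Cardinal.mk (Set.Iio θ.ord) ≤ Cardinal.mk (Set.Iio τ.ord → Bool) := by
    rw [Cardinal.mk_Iio_ordinal, Cardinal.card_ord, Cardinal.mk_arrow, Cardinal.mk_bool,
      Cardinal.mk_Iio_ordinal, Cardinal.card_ord, Cardinal.lift_ofNat, Cardinal.lift_uzero]
    have h2 : Cardinal.lift.{1} θ ≤ Cardinal.lift.{1} ((2 : Cardinal.{0}) ^ τ) :=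
      Cardinal.lift_le.2 h
    rwa [Cardinal.lift_power, Cardinal.lift_ofNat] at h2
  obtain ⟨f⟩ := h1
  refine ⟨fun x i => if hx : x < θ.ord then (if hi : i < τ.ord then f ⟨x, hx⟩ ⟨i, hi⟩ else false)
    else false, ?_⟩
  intro x hx y hy hxy
  have h3 : f ⟨x, hx⟩ ≠ f ⟨y, hy⟩ := by
    intro h4
    have := f.injective h4
    exact hxy (congrArg Subtype.val this)
  obtain ⟨⟨i, hi⟩, hne⟩ := Function.ne_iff.1 h3
  refine ⟨i, hi, ?_⟩
  have hi' : i < τ.ord := hi
  simp only [dif_pos hx, dif_pos hy, dif_pos hi']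
  exact hne

theorem kills_att {ι : Type} [Infinite ι] {κ τ : Cardinal.{0}} (hτ : ℵ₀ ≤ τ) (hτκ : τ < κ)
    (h : (2 : Cardinal.{0}) ^ κ ≤ (2 : Cardinal.{0}) ^ τ) :
    Kills ι ((2 : Cardinal.{0}) ^ κ).ord κ := by
  obtain ⟨F, hF⟩ := exists_fun h
  obtain ⟨i0⟩ : Nonempty ι := inferInstance
  obtain ⟨d, hd, hd2⟩ := relabel (fun _ : Unit => i0) (fun _ _ _ => rfl) (pat F) (pat_free F)
  refine ⟨d, hd, fun X hX hX0 => ?_⟩
  have h1 := pat_small F X τ.ord τ hτ (Cardinal.card_ord τ).le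
    (fun x hx y hy hxy => hF x (hX hx) y (hX hy) hxy.ne) (hd2 X hX0)
  exact lt_of_le_of_lt h1 (Cardinal.lift_lt.2 hτκ)

theorem kills_small {ι : Type} [Infinite ι] {κ : Cardinal.{0}} (hκ : ℵ₀ ≤ κ)
    (hsing : κ.ord.cof < κ) (h : κ.ord.cof ≤ (2 : Cardinal.{0}) ^ (Cardinal.mk ι)) :
    Kills ι ((2 : Cardinal.{0}) ^ κ).ord κ := by
  classical
  obtain ⟨s, hs1, -, hs3⟩ := exists_seq κ hκ hsing id (fun τ h => h)
  obtain ⟨F, hF⟩ := exists_fun (θ := (2 : Cardinal.{0}) ^ κ) (τ := κ) le_rfl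
  set m : Ordinal.{0} := κ.ord.cof.ord with hm
  -- the level of the first difference
  let S : Ordinal.{0} → Ordinal.{0} → Set Ordinal.{0} := fun x y =>
    {i | i < m ∧ ∃ j < (s i).ord, F x j ≠ F y j}
  let hh : Ordinal.{0} → Ordinal.{0} → Ordinal.{0} := fun x y => sInf (S x y)
  have hhS : ∀ x < ((2 : Cardinal.{0}) ^ κ).ord, ∀ y < ((2 : Cardinal.{0}) ^ κ).ord, x ≠ y →
      hh x y ∈ S x y := by
    intro x hx y hy hxy
    obtain ⟨j, hj, hne⟩ := hF x hx y hy hxy
    obtain ⟨i, hi, hji⟩ := hs3 j.card (Cardinal.lt_ord.1 hj)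
    exact csInf_mem (s := S x y) ⟨i, hi, j, Cardinal.lt_ord.2 hji, hne⟩
  -- the code
  have hcode : Nonempty (Set.Iio m ↪ (ι → Bool)) := by
    rw [← Cardinal.lift_mk_le', Cardinal.mk_Iio_ordinal, hm, Cardinal.card_ord,
      ← Cardinal.power_def, Cardinal.mk_bool, Cardinal.lift_uzero]
    exact Cardinal.lift_le.2 h
  obtain ⟨code⟩ := hcode
  let a : Ordinal.{0} → Ordinal.{0} → ι → Bool := fun x y =>
    if h : hh x y < m then code ⟨hh x y, h⟩ else fun _ => false
  -- relabelling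
  have hprod : Cardinal.mk (ι × Bool) ≤ Cardinal.mk ι := by
    rw [Cardinal.mk_prod, Cardinal.lift_id, Cardinal.lift_id, Cardinal.mk_bool]
    refine (Cardinal.mul_le_max_of_aleph0_le_left (Cardinal.aleph0_le_mk ι)).trans
      (max_le le_rfl ?_)
    exact (Cardinal.natCast_lt_aleph0 (n := 2)).le.trans (Cardinal.aleph0_le_mk ι)
  obtain ⟨e⟩ := hprod
  obtain ⟨i0⟩ : Nonempty ι := inferInstance
  obtain ⟨d1, hd1, hd1'⟩ := relabel e e.injective (del1 a) (del1_free a)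
  obtain ⟨d2, hd2, hd2'⟩ := relabel e e.injective (del2 a) (del2_free a)
  obtain ⟨d3, hd3, hd3'⟩ := relabel (fun _ : Unit => i0) (fun _ _ _ => rfl) (pat F) (pat_free F)
  obtain ⟨d, hd, hdX⟩ := combine (ι := ι) (K := Fin 3) (by
      rw [Cardinal.mk_fin]
      exact (Cardinal.natCast_lt_aleph0 (n := 3)).le.trans (Cardinal.aleph0_le_mk ι))
    ![d1, d2, d3] (by
      intro k
      fin_cases k
      · exact hd1
      · exact hd2
      · exact hd3)
  refine ⟨d, hd, fun X hX hX0 => ?_⟩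
  have h1 := hd1' X (hdX X hX0 0)
  have h2 := hd2' X (hdX X hX0 1)
  have h3 := hd3' X (hdX X hX0 2)
  by_cases hex : ∃ x ∈ X, ∃ y ∈ X, x < y
  · obtain ⟨x0, hx0, y0, hy0, hlt0⟩ := hex
    have hall : ∀ x ∈ X, ∀ y ∈ X, x < y → hh x y = hh x0 y0 := by
      intro x hx y hy hxy
      have h4 := del_const a X h1 h2 x hx y hy x0 hx0 y0 hy0 hxy hlt0
      have h5 := (hhS x (hX hx) y (hX hy) hxy.ne).1
      have h6 := (hhS x0 (hX hx0) y0 (hX hy0) hlt0.ne).1
      simp only [a] at h4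
      rw [dif_pos h5, dif_pos h6] at h4
      exact congrArg Subtype.val (code.injective h4)
    have h6 := (hhS x0 (hX hx0) y0 (hX hy0) hlt0.ne).1
    have h7 := pat_small F X (s (hh x0 y0)).ord (s (hh x0 y0)) (hs1 _ h6).1
      (Cardinal.card_ord _).le (fun x hx y hy hxy => by
        have h8 := (hhS x (hX hx) y (hX hy) hxy.ne).2
        rw [hall x hx y hy hxy] at h8
        exact h8) h3
    exact lt_of_le_of_lt h7 (Cardinal.lift_lt.2 (hs1 _ h6).2)
  · push Not at hex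
    have hsub : X.Subsingleton := fun x hx y hy => le_antisymm (hex y hy x hx) (hex x hx y hy)
    have h9 : Cardinal.mk X ≤ 1 := Cardinal.mk_le_one_iff_set_subsingleton.2 hsub
    refine lt_of_le_of_lt h9 (lt_of_lt_of_le Cardinal.one_lt_aleph0 ?_)
    rw [← Cardinal.lift_aleph0.{1, 0}]
    exact Cardinal.lift_le.2 hκ

end Pool.H58.AE
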