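import Pool.Agent.H58.AE.EXT
import Pool.Agent.H58.AE.PAT

set_option autoImplicit false

/-!
MODULE COR.  The main argument.  Notation `m = κ.ord.cof.ord`, `p(x, z) = P z x` for `x < z`.

Suppose `#X ≥ lift κ`.  By `exists_incr` take `y` increasing on `Iio κ.ord` with values in `X`;
`Y = y '' Iio κ.ord ⊆ X`, again `Hom0` for the three colourings (subset).  Let
`γ = ⨆ ξ : Iio κ.ord, succ (y ξ)`; `γ < Θ` since `#κ.ord = κ < cof Θ`; `γ` has no largest element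
(`κ.ord` is a limit), `Y` is unbounded in `γ` and `Y ⊆ Iio γ`; `cof γ = cof κ.ord > ℵ₀`
(`Ordinal.cof_iSup_Iio_add_one`, or directly: a countable subset of `Y` has its indices bounded
below `κ.ord`).
(1) ROWS.  For `x ∈ Y` there is `w < m` with `p(x, z) < w` for all `z ∈ Y`, `z > x`: apply `hG.bdd` to
`{p(x, z) | z ∈ Y, x < z}`; for `z < z'` the pair has no colour by `h2` (star2), for `z = z'` by
`hG.diag`, and use `hG.symm`.
(2) For `δ < γ` with `Acc Y δ` (then `δ` is a limit ordinal) let `z_δ` be the least element of `Y`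
which is `≥ δ`.  There are `c, c' < m` and `l < δ` with, for `x ∈ (l, δ)`:
`p(x, z_δ) = max c (p(x, δ))` (`hC2` if `δ < z_δ`, `c = 0` if `z_δ = δ`) and
`p(x, γ) = max c' (p(x, δ))` (`hC2` with `β = γ`).  Choose functions `cc, cc', LL` of `δ`.
(3) `press` with `L = LL`: there is `l < γ` such that the set `S` of `δ < γ` with `Acc Y δ`,
`LL δ ≤ l` is unbounded in `γ`.
(4) Fix `x₀ ∈ Y`, `x₀ > l`, `w` as in (1) for `x₀`, and `w' = p(x₀, γ) < m`.  For `δ ∈ S`, `δ > x₀`: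
`cc δ ≤ p(x₀, z_δ) < w` and `cc' δ ≤ p(x₀, γ) = w'`.
(5) `Q = {p(x, γ) | x ∈ Y, x > l, p(x, γ) > max w w'}` has no coloured pairs: for `x < x'` take `δ ∈ S`
above `x'` and `x₀`; `p(x, γ) = max (cc' δ) (p(x, δ)) > w' ≥ cc' δ` gives `p(x, δ) = p(x, γ)`, and
`p(x, z_δ) = max (cc δ) (p(x, δ)) = p(x, γ)` as `p(x, γ) > w > cc δ`; the same for `x'`; and
`(x, x', z_δ)` is not coloured by star1: `G (p(x, γ)) (p(x', γ)) = none`.  (`x = x'`: `hG.diag`.)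
By `hG.bdd`, `Q` is bounded by some `w'' < m`.  So `p(x, γ) ≤ v := max (max w w') w'' < m` for all
`x ∈ Y`, `x > l`.
(6) For `x < x'` in `Y`, both `> l`: `p(x, x') ≤ max (p(x, γ)) (p(x', γ)) ≤ v` (`hS2` with `z = γ`), so
`F x`, `F x'` differ below `(t (p(x, x'))).ord ≤ (t v).ord` (`htm`).  `pat_small` with
`τ = (t v).ord`, `θ = t v` for `{x ∈ Y | x > l}`: it has at most `t v < κ` elements, but it contains
`y '' {ξ | ξ₀ ≤ ξ < κ.ord}` for some `ξ₀ < κ.ord` with `y ξ₀ > l`, which has `≥ κ` elements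
(`tail_card`).  Contradiction.
-/

namespace Pool.H58.AE

open Cardinal Ordinal Set

theorem COR_acc_limit {C : Set Ordinal.{0}} {δ : Ordinal.{0}} (h : Acc C δ) :
    Order.IsSuccLimit δ := by
  refine ⟨?_, ?_⟩
  · intro hmin
    apply h.1
    have := hmin (b := 0) (by simp)
    exact le_antisymm this (by simp)
  · intro a ha
    obtain ⟨b, -, hab, hbδ⟩ := h.2 a ha.1
    exact ha.2 hab hbδ

theorem core {ι : Type} {κ : Cardinal.{0}} {Θ : Ordinal.{0}} (hκ : ℵ₀ ≤ κ)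
    (hcof : ℵ₀ < κ.ord.cof) (hΘ : κ < Θ.cof)
    (G : Ordinal.{0} → Ordinal.{0} → Option ι) (hG : PairCol κ.ord.cof.ord G)
    (P : Ordinal.{0} → Ordinal.{0} → Ordinal.{0})
    (hP : ∀ z < Θ, ∀ x < z, P z x < κ.ord.cof.ord)
    (hC2 : ∀ β < Θ, ∀ δ < β, Order.IsSuccLimit δ →
      ∃ c < κ.ord.cof.ord, ∃ l < δ, ∀ α, l < α → α < δ → P β α = max c (P δ α))
    (hS2 : ∀ z < Θ, ∀ y < z, ∀ x < y, P y x ≤ max (P z x) (P z y))
    (t : Ordinal.{0} → Cardinal.{0}) (ht0 : ∀ i < κ.ord.cof.ord, ℵ₀ ≤ t i ∧ t i < κ)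
    (htm : ∀ i < κ.ord.cof.ord, ∀ j < κ.ord.cof.ord, i ≤ j → t i ≤ t j)
    (F : Ordinal.{0} → Ordinal.{0} → Bool)
    (hF : ∀ y < Θ, ∀ x < y, ∃ j < (t (P y x)).ord, F x j ≠ F y j)
    (X : Set Ordinal.{0}) (hX : X ⊆ Set.Iio Θ)
    (h1 : Hom0 (star1 G P) X) (h2 : Hom0 (star2 G P) X) (h3 : Hom0 (pat F) X) :
    Cardinal.mk X < Cardinal.lift.{1} κ := by
  classical
  by_contra hcon
  rw [not_lt] at hcon
  obtain ⟨y, hyX, hy⟩ := exists_incr κ X hcon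
  have hlim : Order.IsSuccLimit κ.ord := Cardinal.isSuccLimit_ord hκ
  let f : Set.Iio κ.ord → Ordinal.{0} := fun ξ => y ξ.1
  have hf : StrictMono f := fun a b hab => hy a.1 a.2 b.1 b.2 hab
  obtain ⟨γ, hγ⟩ : ∃ γ, γ = ⨆ i, f i + 1 := ⟨_, rfl⟩
  have hcofγ : γ.cof = κ.ord.cof := by
    rw [hγ]; exact cof_iSup_Iio_add_one hf
  have hγΘ : γ < Θ := by
    rw [hγ]
    apply lift_iSup_add_one_lt_of_lt_cof
    · have h0 : Cardinal.lift.{1, 0} κ < Cardinal.lift.{1, 0} Θ.cof := Cardinal.lift_lt.mpr hΘ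
      rw [lift_cof] at h0
      simpa using h0
    · intro i; exact hX (hyX _ i.2)
  have hyγ : ∀ ξ < κ.ord, y ξ < γ := fun ξ hξ => by
    rw [hγ]; exact Ordinal.lt_iSup_add_one f ⟨ξ, hξ⟩
  have hunb : ∀ a < γ, ∃ ξ < κ.ord, a < y ξ := by
    intro a ha
    rw [hγ, Ordinal.lt_iSup_add_one_iff] at ha
    obtain ⟨⟨ξ, hξ⟩, h⟩ := ha
    exact ⟨Order.succ ξ, hlim.succ_lt hξ,
      lt_of_le_of_lt h (hy ξ hξ _ (hlim.succ_lt hξ) (Order.lt_succ ξ))⟩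
  obtain ⟨Y, hY⟩ : ∃ Y : Set Ordinal.{0}, Y = y '' Set.Iio κ.ord := ⟨_, rfl⟩
  have hYX : ∀ z ∈ Y, z ∈ X := by
    intro z hz; rw [hY] at hz
    obtain ⟨ξ, hξ, rfl⟩ := hz; exact hyX ξ hξ
  have hYγ : ∀ z ∈ Y, z < γ := by
    intro z hz; rw [hY] at hz
    obtain ⟨ξ, hξ, rfl⟩ := hz; exact hyγ ξ hξ
  have hYΘ : ∀ z ∈ Y, z < Θ := fun z hz => (hYγ z hz).trans hγΘ
  have hunbY : ∀ a < γ, ∃ b ∈ Y, a < b ∧ b < γ := by
    intro a ha
    obtain ⟨ξ, hξ, h⟩ := hunb a ha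
    exact ⟨y ξ, by rw [hY]; exact ⟨ξ, hξ, rfl⟩, h, hyγ ξ hξ⟩
  -- rows
  have rows : ∀ x ∈ Y, ∃ w < κ.ord.cof.ord, ∀ z ∈ Y, x < z → P z x < w := by
    intro x hx
    obtain ⟨c, hc, h⟩ := hG.bdd {v | ∃ z ∈ Y, x < z ∧ v = P z x} (by
        rintro v ⟨z, hz, hxz, rfl⟩
        exact hP z (hYΘ z hz) x hxz) (by
        rintro a ⟨z, hz, hxz, rfl⟩ b ⟨z', hz', hxz', rfl⟩
        rcases lt_trichotomy z z' with h | h | h
        · exact h2 x (hYX x hx) z (hYX z hz) z' (hYX z' hz') hxz h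
        · rw [h]; exact hG.diag _
        · rw [hG.symm]
          exact h2 x (hYX x hx) z' (hYX z' hz') z (hYX z hz) hxz' h)
    exact ⟨c, hc, fun z hz hxz => h _ ⟨z, hz, hxz, rfl⟩⟩
  have hm0 : 0 < κ.ord.cof.ord := by
    have : (0 : Cardinal) < κ.ord.cof := lt_trans Cardinal.aleph0_pos hcof
    rwa [Cardinal.lt_ord, Ordinal.card_zero]
  have key : ∀ δ, δ < γ → Acc Y δ → ∃ z, ∃ c, ∃ c', ∃ l, z ∈ Y ∧ δ ≤ z ∧
      l < δ ∧ ∀ x, l < x → x < δ → P z x = max c (P δ x) ∧ P γ x = max c' (P δ x) := by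
    intro δ hδ hacc
    have hlimδ := COR_acc_limit hacc
    obtain ⟨z, hz, hδz, hzγ⟩ := hunbY δ hδ
    obtain ⟨c, -, l, hl, h⟩ := hC2 z (hYΘ z hz) δ hδz hlimδ
    obtain ⟨c', -, l', hl', h'⟩ := hC2 γ hγΘ δ hδ hlimδ
    refine ⟨z, c, c', max l l', hz, hδz.le, max_lt hl hl', fun x hx hxδ => ⟨?_, ?_⟩⟩
    · exact h x (lt_of_le_of_lt (le_max_left _ _) hx) hxδ
    · exact h' x (lt_of_le_of_lt (le_max_right _ _) hx) hxδ
  choose! zf cf cf' lf hzY hδz hlδ hval using key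
  obtain ⟨l, hlγ, hl⟩ := press Y γ (by rw [hcofγ]; exact hcof) hunbY lf hlδ
  obtain ⟨x₀, hx₀Y, hlx₀, hx₀γ⟩ := hunbY l hlγ
  obtain ⟨w, hw, hrow⟩ := rows x₀ hx₀Y
  have hw' : P γ x₀ < κ.ord.cof.ord := hP γ hγΘ x₀ hx₀γ
  -- good δ
  have hgood : ∀ ε < γ, ∃ z ∈ Y, ∃ c, ∃ c', ε < z ∧ x₀ < z ∧ c < w ∧ c' ≤ P γ x₀ ∧
      ∀ x, l < x → x ≤ ε → (∃ v, P z x = max c v ∧ P γ x = max c' v) := by
    intro ε hε
    obtain ⟨δ, hεδ, hδγ, hacc, hlf⟩ := hl (max ε x₀) (max_lt hε hx₀γ)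
    have hεδ1 : ε < δ := lt_of_le_of_lt (le_max_left _ _) hεδ
    have hεδ2 : x₀ < δ := lt_of_le_of_lt (le_max_right _ _) hεδ
    have hz1 := hδz δ hδγ hacc
    have hv0 := hval δ hδγ hacc x₀ (lt_of_le_of_lt hlf hlx₀) hεδ2
    refine ⟨zf δ, hzY δ hδγ hacc, cf δ, cf' δ, lt_of_lt_of_le hεδ1 hz1,
      lt_of_lt_of_le hεδ2 hz1, ?_, ?_, ?_⟩
    · have := hrow (zf δ) (hzY δ hδγ hacc) (lt_of_lt_of_le hεδ2 hz1)
      exact lt_of_le_of_lt (by rw [hv0.1]; exact le_max_left _ _) this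
    · rw [hv0.2]; exact le_max_left _ _
    · intro x hx hxε
      exact ⟨P δ x, hval δ hδγ hacc x (lt_of_le_of_lt hlf hx) (lt_of_le_of_lt hxε hεδ1)⟩
  obtain ⟨w'', hw'', hQ⟩ := hG.bdd
    {v | ∃ x ∈ Y, l < x ∧ v = P γ x ∧ w < v ∧ P γ x₀ < v} (by
      rintro v ⟨x, hx, hlx, rfl, -, -⟩
      exact hP γ hγΘ x (hYγ x hx)) (by
      have main : ∀ x ∈ Y, ∀ x' ∈ Y, x < x' → l < x → w < P γ x → P γ x₀ < P γ x →
          w < P γ x' → P γ x₀ < P γ x' → G (P γ x) (P γ x') = none := by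
        intro x hx x' hx' hxx' hlx ha hb ha' hb'
        obtain ⟨z, hz, c, c', hεz, -, hc, hc', hv⟩ := hgood x' (hYγ x' hx')
        obtain ⟨v, hv1, hv2⟩ := hv x hlx hxx'.le
        obtain ⟨v', hv1', hv2'⟩ := hv x' (hlx.trans hxx') le_rfl
        have e1 : P γ x = v := by
          rcases max_cases c' v with ⟨h, -⟩ | ⟨h, -⟩
          · rw [h] at hv2; exact absurd hc' (not_le.mpr (by rw [← hv2]; exact hb))
          · rw [hv2, h]
        have e2 : P γ x' = v' := by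
          rcases max_cases c' v' with ⟨h, -⟩ | ⟨h, -⟩
          · rw [h] at hv2'; exact absurd hc' (not_le.mpr (by rw [← hv2']; exact hb'))
          · rw [hv2', h]
        have e3 : P z x = P γ x := by
          rw [hv1, ← e1]; exact max_eq_right (hc.le.trans ha.le)
        have e4 : P z x' = P γ x' := by
          rw [hv1', ← e2]; exact max_eq_right (hc.le.trans ha'.le)
        have := h1 x (hYX x hx) x' (hYX x' hx') z (hYX z hz) hxx' hεz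
        unfold star1 at this
        rwa [e3, e4] at this
      rintro a ⟨x, hx, hlx, rfl, ha, hb⟩ b ⟨x', hx', hlx', rfl, ha', hb'⟩
      rcases lt_trichotomy x x' with h | h | h
      · exact main x hx x' hx' h hlx ha hb ha' hb'
      · rw [h]; exact hG.diag _
      · rw [hG.symm]; exact main x' hx' x hx h hlx' ha' hb' ha hb)
  obtain ⟨v, hv⟩ : ∃ v, v = max (max w (P γ x₀)) w'' := ⟨_, rfl⟩
  have hvm : v < κ.ord.cof.ord := by rw [hv]; exact max_lt (max_lt hw hw') hw''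
  have hbound : ∀ x ∈ Y, l < x → P γ x ≤ v := by
    intro x hx hlx
    by_contra hlt
    rw [not_le, hv, max_lt_iff, max_lt_iff] at hlt
    exact absurd (hQ _ ⟨x, hx, hlx, rfl, hlt.1.1, hlt.1.2⟩) (not_lt.mpr hlt.2.le)
  obtain ⟨Z, hZ⟩ : ∃ Z : Set Ordinal.{0}, Z = {x | x ∈ Y ∧ l < x} := ⟨_, rfl⟩
  have hZsmall : Cardinal.mk Z ≤ Cardinal.lift.{1} (t v) := by
    apply pat_small F Z (t v).ord (t v) (ht0 v hvm).1 (by simp)
    · intro x hx x' hx' hxx'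
      rw [hZ] at hx hx'
      have hp : P x' x ≤ v :=
        (hS2 γ hγΘ x' (hYγ x' hx'.1) x hxx').trans
          (max_le (hbound x hx.1 hx.2) (hbound x' hx'.1 hx'.2))
      obtain ⟨j, hj, hne⟩ := hF x' (hYΘ x' hx'.1) x hxx'
      refine ⟨j, lt_of_lt_of_le hj ?_, hne⟩
      exact Cardinal.ord_le_ord.mpr (htm _ (lt_of_le_of_lt hp hvm) v hvm hp)
    · intro x hx y' hy' z hz hxy hyz
      rw [hZ] at hx hy' hz
      exact h3 x (hYX x hx.1) y' (hYX y' hy'.1) z (hYX z hz.1) hxy hyz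
  obtain ⟨ξ₀, hξ₀, hlξ₀⟩ := hunb l hlγ
  have hsub : y '' {ξ | ξ₀ ≤ ξ ∧ ξ < κ.ord} ⊆ Z := by
    rintro _ ⟨ξ, ⟨h1, h2⟩, rfl⟩
    rw [hZ]
    refine ⟨by rw [hY]; exact ⟨ξ, h2, rfl⟩, ?_⟩
    rcases h1.lt_or_eq with h | h
    · exact hlξ₀.trans (hy _ hξ₀ _ h2 h)
    · rw [← h]; exact hlξ₀
  have h5 := (tail_card κ hκ y hy ξ₀ hξ₀).trans ((Cardinal.mk_le_mk_of_subset hsub).trans hZsmall)
  rw [Cardinal.lift_le] at h5
  exact absurd (ht0 v hvm).2 (not_lt.mpr h5)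

end Pool.H58.AE
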