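import Pool.Agent.H58.AE.SUB

set_option autoImplicit false

/-!
MODULE CTW.  For a limit ordinal `δ < β < Θ` there are `c < m` and `l < δ` with
`ρ(α, β) = max c (ρ(α, δ))` for all `α ∈ (l, δ)`.

Strong induction on `β`.  CASE A: `Acc (C β) δ`: `c = 0`, `l = 0` and `pw_coh`
(`0 < δ` as `δ` is a limit).
CASE B: otherwise there is `l₀ < δ` such that no `b ∈ C β` has `l₀ < b < δ`.
Let `β₁ = nx (C β) δ`, `δ ≤ β₁ < β` (`nx_mem`).  For `α ∈ (l₀, δ)`: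
 * `nx (C β) α = β₁`;
 * `rk (C β) α = rk (C β) δ` (`rk_gap`);
 * `EE (C β) α = EE (C β) δ` (elements of `C β` below `δ` are `≤ l₀ < α`; an accumulation point in
   `(α, δ]` would give an element of `C β` in `(α, δ)`).
There are `c₁ < m`, `l₁ < δ` with `ρ(α, β₁) = max c₁ (ρ(α, δ))` for `α ∈ (l₁, δ)`: if `β₁ = δ` take
`c₁ = 0`, `l₁ = 0`; if `β₁ > δ` use the induction hypothesis.
Let `E = EE (C β) δ` (finite, `EE_finite`) and let `c` be the maximum of `hh (rk (C β) δ)`, `c₁` and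
the finitely many `ρ(ξ, δ)`, `ξ ∈ E` (all `< m` by `pw_lt` and `hhm`); `l = max l₀ l₁`.
For `α ∈ (l, δ)`, by `pw_le_iff`, for every `b`:
  `ρ(α, β) ≤ b ↔ hh (rk (C β) δ) ≤ b ∧ max c₁ (ρ(α, δ)) ≤ b ∧ ∀ ξ ∈ E, ρ(ξ, α) ≤ b`.
By `sub_both` (top `δ`, `ξ ≤ α ≤ δ`): `ρ(ξ, δ) ≤ max (ρ(ξ, α)) (ρ(α, δ))` and
`ρ(ξ, α) ≤ max (ρ(ξ, δ)) (ρ(α, δ))`.  Hence `ρ(α, β) ≤ max c (ρ(α, δ))` and conversely.
-/

namespace Pool.H58.AE

open Cardinal Ordinal Set

theorem ctw_gap {C : Set Ordinal.{0}} {δ : Ordinal.{0}} (h0 : δ ≠ 0) (h : ¬ Acc C δ) :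
    ∃ l < δ, ∀ b ∈ C, l < b → δ ≤ b := by
  by_contra hc
  apply h
  refine ⟨h0, fun a ha => ?_⟩
  by_contra hb
  apply hc
  refine ⟨a, ha, fun b hbC hab => ?_⟩
  by_contra hlt
  exact hb ⟨b, hbC, hab, not_le.mp hlt⟩

theorem ctw_nx {C : Set Ordinal.{0}} {δ l α : Ordinal.{0}} (h : ∀ b ∈ C, l < b → δ ≤ b)
    (h1 : l < α) (h2 : α < δ) : nx C α = nx C δ := by
  unfold nx
  congr 1
  ext b
  constructor
  · rintro ⟨hb, hab⟩
    exact ⟨hb, h b hb (lt_of_lt_of_le h1 hab)⟩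
  · rintro ⟨hb, hab⟩
    exact ⟨hb, h2.le.trans hab⟩

theorem ctw_rk {C : Set Ordinal.{0}} {δ l α : Ordinal.{0}} (h : ∀ b ∈ C, l < b → δ ≤ b)
    (h1 : l < α) (h2 : α < δ) : rk C α = rk C δ := by
  apply rk_gap h2.le
  intro ξ hξ hlt
  by_contra hc
  exact absurd (h ξ hξ (lt_of_lt_of_le h1 (not_lt.mp hc))) (not_le.mpr hlt)

theorem ctw_EE {C : Set Ordinal.{0}} {δ l α : Ordinal.{0}} (h : ∀ b ∈ C, l < b → δ ≤ b)
    (h1 : l < α) (h2 : α < δ) : EE C α = EE C δ := by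
  ext ξ
  constructor
  · rintro ⟨hξ, hlt, hη⟩
    refine ⟨hξ, hlt.trans h2, fun η hacc hc => ?_⟩
    rcases le_or_gt η α with hle | hgt
    · exact hη η hacc ⟨hc.1, hle⟩
    · obtain ⟨b, hb, hb1, hb2⟩ := hacc.2 α hgt
      exact absurd (h b hb (h1.trans hb1)) (not_le.mpr (lt_of_lt_of_le hb2 hc.2))
  · rintro ⟨hξ, hlt, hη⟩
    refine ⟨hξ, ?_, fun η hacc hc => hη η hacc ⟨hc.1, hc.2.trans h2.le⟩⟩
    by_contra hc
    exact absurd (h ξ hξ (lt_of_lt_of_le h1 (not_lt.mp hc))) (not_le.mpr hlt)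

/-- an upper bound below `m` of finitely many values below `m` -/
theorem ctw_bd {m : Ordinal.{0}} {E : Set Ordinal.{0}} (hE : E.Finite)
    (f : Ordinal.{0} → Ordinal.{0}) (c0 : Ordinal.{0}) (hc0 : c0 < m) (hf : ∀ ξ ∈ E, f ξ < m) :
    ∃ c < m, c0 ≤ c ∧ (∀ ξ ∈ E, f ξ ≤ c) ∧ (c = c0 ∨ ∃ ξ ∈ E, c = f ξ) := by
  induction E, hE using Set.Finite.induction_on with
  | empty => exact ⟨c0, hc0, le_rfl, fun ξ hξ => absurd hξ (Set.notMem_empty _), Or.inl rfl⟩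
  | @insert a s ha hs ih =>
    obtain ⟨c, hcm, h0, h1, h2⟩ := ih (fun ξ hξ => hf ξ (Set.mem_insert_of_mem a hξ))
    refine ⟨max c (f a), max_lt hcm (hf a (Set.mem_insert a s)), h0.trans (le_max_left _ _),
      ?_, ?_⟩
    · intro ξ hξ
      rcases Set.mem_insert_iff.mp hξ with rfl | hξ
      · exact le_max_right _ _
      · exact (h1 ξ hξ).trans (le_max_left _ _)
    · rcases le_total c (f a) with hle | hle
      · right
        exact ⟨a, Set.mem_insert a s, max_eq_right hle⟩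
      · rw [max_eq_left hle]
        rcases h2 with h2 | ⟨ξ, hξ, h2⟩
        · exact Or.inl h2
        · exact Or.inr ⟨ξ, Set.mem_insert_of_mem a hξ, h2⟩

theorem ctwo {C : Ordinal.{0} → Set Ordinal.{0}} {Θ lam : Ordinal.{0}} (hW : Walk C Θ lam)
    (hh : Ordinal.{0} → Ordinal.{0}) (hmono : ∀ ξ < lam, ∀ η < lam, ξ ≤ η → hh ξ ≤ hh η)
    {m : Ordinal.{0}} (hm : 0 < m) (hhm : ∀ ξ < lam, hh ξ < m) :
    ∀ β < Θ, ∀ δ < β, Order.IsSuccLimit δ →
      ∃ c < m, ∃ l < δ, ∀ α, l < α → α < δ → pw C hh β α = max c (pw C hh δ α) := by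
  intro β
  induction β using WellFoundedLT.induction with
  | ind β ih =>
    intro hβ δ hδ hlim
    have hδ0 : δ ≠ 0 := by
      rintro rfl
      exact hlim.ne_bot rfl
    have hδpos : 0 < δ := pos_iff_ne_zero.mpr hδ0
    by_cases hacc : Acc (C β) δ
    · refine ⟨0, hm, 0, hδpos, fun α _ hα => ?_⟩
      rw [max_eq_right zero_le]
      exact (pw_coh hW hh hβ hδ hacc hα).symm
    · obtain ⟨l0, hl0, hgap⟩ := ctw_gap hδ0 hacc
      obtain ⟨hn1, hn2, hn3⟩ := nx_mem hW hβ hδ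
      have hc1 : ∃ c1 < m, ∃ l1 < δ, ∀ α, l1 < α → α < δ →
          pw C hh (nx (C β) δ) α = max c1 (pw C hh δ α) := by
        rcases eq_or_lt_of_le hn2 with heq | hlt
        · refine ⟨0, hm, 0, hδpos, fun α _ hα => ?_⟩
          rw [max_eq_right zero_le, ← heq]
        · exact ih (nx (C β) δ) hn3 (hn3.trans hβ) δ hlt hlim
      obtain ⟨c1, hc1m, l1, hl1, hc1⟩ := hc1
      obtain ⟨c, hcm, hcc, hcE, hcv⟩ := ctw_bd (EE_finite hW hβ hδ) (fun ξ => pw C hh δ ξ)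
        (max (hh (rk (C β) δ)) c1) (max_lt (hhm _ (hW.rkl β hβ δ hδ)) hc1m)
        (fun ξ _ => pw_lt hW hh hm hhm δ (hδ.trans hβ) ξ)
      refine ⟨c, hcm, max l0 l1, max_lt hl0 hl1, fun α hα1 hα2 => ?_⟩
      have ha0 : l0 < α := lt_of_le_of_lt (le_max_left _ _) hα1
      have ha1 : l1 < α := lt_of_le_of_lt (le_max_right _ _) hα1
      have hαβ : α < β := hα2.trans hδ
      have key : ∀ b, pw C hh β α ≤ b ↔ hh (rk (C β) δ) ≤ b ∧ max c1 (pw C hh δ α) ≤ b ∧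
          ∀ ξ ∈ EE (C β) δ, pw C hh α ξ ≤ b := by
        intro b
        rw [pw_le_iff hW hh hβ hαβ b, ctw_nx hgap ha0 hα2, ctw_rk hgap ha0 hα2,
          ctw_EE hgap ha0 hα2, hc1 α ha1 hα2]
      have hEα : ∀ ξ ∈ EE (C β) δ, ξ ≤ α := by
        intro ξ hξ
        rw [← ctw_EE hgap ha0 hα2] at hξ
        exact hξ.2.1.le
      apply le_antisymm
      · rw [key]
        refine ⟨((le_max_left _ _).trans hcc).trans (le_max_left _ _),
          max_le (((le_max_right _ _).trans hcc).trans (le_max_left _ _)) (le_max_right _ _),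
          fun ξ hξ => ?_⟩
        have h2 := (sub_both hW hh hmono δ (hδ.trans hβ) ξ α (hEα ξ hξ) hα2.le).2
        exact h2.trans (max_le ((hcE ξ hξ).trans (le_max_left _ _)) (le_max_right _ _))
      · obtain ⟨k1, k2, k3⟩ := (key (pw C hh β α)).mp le_rfl
        have k4 : pw C hh δ α ≤ pw C hh β α := (le_max_right _ _).trans k2
        refine max_le ?_ k4
        rcases hcv with hcv | ⟨ξ, hξ, hcv⟩
        · rw [hcv]
          exact max_le k1 ((le_max_left _ _).trans k2)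
        · rw [hcv]
          have h1 := (sub_both hW hh hmono δ (hδ.trans hβ) ξ α (hEα ξ hξ) hα2.le).1
          exact h1.trans (max_le (k3 ξ hξ) k4)

end Pool.H58.AE
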