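import Mathlib

set_option autoImplicit false

/-!
MP_ae1dc2_lc (helper58).  Definitions.

Notation of the text: `κ` singular, `μ = cf κ`, `m = μ.ord`, `Λ = 2 ^< κ`.
Everything is done with ordinals in `Ordinal.{0}`.
-/

namespace Pool.H58.AE

open Cardinal Ordinal Set

/-- `δ` is an accumulation point of the set `C` of ordinals. -/
def Acc (C : Set Ordinal.{0}) (δ : Ordinal.{0}) : Prop :=
  δ ≠ 0 ∧ ∀ a < δ, ∃ b ∈ C, a < b ∧ b < δ

/-- Jensen's square principle at `lam`: there are sets `C β` for the limit ordinals `β < lam⁺`,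
`C β` closed and unbounded in `β`, of order type at most `lam`, and coherent. -/
def Square (lam : Cardinal.{0}) : Prop :=
  ∃ C : Ordinal.{0} → Set Ordinal.{0},
    ∀ β : Ordinal.{0}, β < (Order.succ lam).ord → Order.IsSuccLimit β →
      C β ⊆ Set.Iio β ∧
      (∀ a < β, ∃ b ∈ C β, a < b) ∧
      (∀ δ < β, Acc (C β) δ → δ ∈ C β) ∧
      Ordinal.type ((· < ·) : C β → C β → Prop) ≤ Ordinal.lift.{1} lam.ord ∧
      (∀ δ < β, Acc (C β) δ → C δ = C β ∩ Set.Iio δ)

/-- the order type of `C ∩ a` -/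
noncomputable def rk (C : Set Ordinal.{0}) (a : Ordinal.{0}) : Ordinal.{0} :=
  open Classical in
  ⨆ ξ : Set.Iio a, if ξ.1 ∈ C then Order.succ (rk C ξ.1) else 0
termination_by a
decreasing_by exact ξ.2

/-- the elements of `C` below `a` after the last accumulation point of `C` which is `≤ a` -/
def EE (C : Set Ordinal.{0}) (a : Ordinal.{0}) : Set Ordinal.{0} :=
  {ξ | ξ ∈ C ∧ ξ < a ∧ ∀ η, Acc C η → ¬ (ξ < η ∧ η ≤ a)}

/-- the least element of `C` which is `≥ a` -/
noncomputable def nx (C : Set Ordinal.{0}) (a : Ordinal.{0}) : Ordinal.{0} :=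
  sInf {b | b ∈ C ∧ a ≤ b}

/-- `C β` (`β < Θ`) is a coherent system of clubs with order types `≤ lam`
(successors and `0` included). -/
structure Walk (C : Ordinal.{0} → Set Ordinal.{0}) (Θ lam : Ordinal.{0}) : Prop where
  sub : ∀ β < Θ, C β ⊆ Set.Iio β
  unb : ∀ β < Θ, ∀ a < β, ∃ b ∈ C β, a ≤ b
  closed : ∀ β < Θ, ∀ δ < β, Acc (C β) δ → δ ∈ C β
  coh : ∀ β < Θ, ∀ δ < β, Acc (C β) δ → C δ = C β ∩ Set.Iio δ
  rkl : ∀ β < Θ, ∀ a < β, rk (C β) a < lam

/-- The function `ρ(α, β)` of the walks on ordinals, with values in the index ordinal;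
`pw C hh β α` is `ρ(α, β)` for `α < β` and `0` otherwise. -/
noncomputable def pw (C : Ordinal.{0} → Set Ordinal.{0}) (hh : Ordinal.{0} → Ordinal.{0}) :
    Ordinal.{0} → Ordinal.{0} → Ordinal.{0} := fun β α =>
  open Classical in
  if h : α < β ∧ nx (C β) α < β then
    max (hh (rk (C β) α)) (max (pw C hh (nx (C β) α) α)
      (⨆ ξ : Set.Iio α, if ξ.1 ∈ EE (C β) α then pw C hh α ξ.1 else 0))
  else 0
termination_by β => β
decreasing_by
  · exact h.2
  · exact h.1

/-- the pair colourings: symmetric, no triangle in a colour of `ι`, and every set of ordinals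
below `m` without coloured pairs is bounded below `m` -/
structure PairCol {ι : Type} (m : Ordinal.{0}) (G : Ordinal.{0} → Ordinal.{0} → Option ι) :
    Prop where
  symm : ∀ a b, G a b = G b a
  diag : ∀ a, G a a = none
  tri : ∀ a b c : Ordinal.{0}, ∀ i : ι,
    ¬ (G a b = some i ∧ G a c = some i ∧ G b c = some i)
  bdd : ∀ H : Set Ordinal.{0}, H ⊆ Set.Iio m → (∀ a ∈ H, ∀ b ∈ H, G a b = none) →
    ∃ c < m, ∀ a ∈ H, a < c

/-- colourings of increasing triples of ordinals without coloured homogeneous quadruple -/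
def Free4 {J : Type} (c : Ordinal.{0} → Ordinal.{0} → Ordinal.{0} → Option J) : Prop :=
  ∀ w x y z : Ordinal.{0}, ∀ i : J, w < x → x < y → y < z →
    ¬ (c w x y = some i ∧ c w x z = some i ∧ c w y z = some i ∧ c x y z = some i)

/-- `X` has no coloured triple -/
def Hom0 {J : Type} (c : Ordinal.{0} → Ordinal.{0} → Ordinal.{0} → Option J)
    (X : Set Ordinal.{0}) : Prop :=
  ∀ x ∈ X, ∀ y ∈ X, ∀ z ∈ X, x < y → y < z → c x y z = none

/-- `Θ ↛ (κ, (4)_ι)³` for the ordinals below `Θ` -/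
def Kills (ι : Type) (Θ : Ordinal.{0}) (κ : Cardinal.{0}) : Prop :=
  ∃ c : Ordinal.{0} → Ordinal.{0} → Ordinal.{0} → Option ι, Free4 c ∧
    ∀ X : Set Ordinal.{0}, X ⊆ Set.Iio Θ → Hom0 c X →
      Cardinal.mk X < Cardinal.lift.{1} κ

/-- first star colouring, `P z x` is the colour of the pair `x < z` -/
def star1 {ι : Type} (G : Ordinal.{0} → Ordinal.{0} → Option ι)
    (P : Ordinal.{0} → Ordinal.{0} → Ordinal.{0}) (x y z : Ordinal.{0}) : Option ι :=
  G (P z x) (P z y)

/-- second star colouring -/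
def star2 {ι : Type} (G : Ordinal.{0} → Ordinal.{0} → Option ι)
    (P : Ordinal.{0} → Ordinal.{0} → Ordinal.{0}) (x y z : Ordinal.{0}) : Option ι :=
  G (P y x) (P z x)

/-- lexicographic order on functions `Ordinal → Bool` -/
def Lx (f g : Ordinal.{0} → Bool) : Prop :=
  ∃ i, (∀ j < i, f j = g j) ∧ f i = false ∧ g i = true

/-- pattern colouring: coloured iff the last point is lexicographically between the others -/
noncomputable def pat (F : Ordinal.{0} → Ordinal.{0} → Bool) (x y z : Ordinal.{0}) :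
    Option Unit :=
  open Classical in
  if (Lx (F x) (F z) ∧ Lx (F z) (F y)) ∨ (Lx (F y) (F z) ∧ Lx (F z) (F x)) then some () else none

end Pool.H58.AE
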