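import Pool.Agent.H58.AE.Defs

set_option autoImplicit false

/-!
MODULE EXT.  Two general facts.

`exists_incr`: a set `X` of ordinals with `#X ≥ lift κ` contains an increasing sequence of
length `κ.ord`: e.g. the order type of `X` (if `X` is small) is `≥ lift κ.ord`; or define
`y ξ = sInf {x ∈ X | ∀ η < ξ, y η < x}` by recursion; if the set is empty for some `ξ < κ.ord` (take the
least), then `X` is contained in the set of ordinals `x ≤ y η` for some `η < ξ`..., in fact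
`X = {y η | η < ξ}` (every `x ∈ X` not of this form satisfies `y η < x` for all `η < ξ` by
minimality), so `#X ≤ lift ξ.card < lift κ`.
`tail_card`: for `ξ₀ < κ.ord`, the set of `y ξ`, `ξ₀ ≤ ξ < κ.ord` has cardinality `≥ lift κ`:
`y` is injective on `Iio κ.ord`, and `#[ξ₀, κ.ord) = κ` since `κ` is infinite and
`ξ₀.card < κ`.
`press`: suppose not: for every `l < γ` there is `ε l < γ` such that every accumulation point
`δ < γ` of `Y` above `ε l` has `l < L δ`.  Build `d 0 ∈ Y ∩ γ` and `d (n+1) ∈ Y ∩ γ` with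
`d (n+1) > max (d n) (ε (d n))` (`hunb`).  Let `δ = sup d n`; `δ < γ` as `cof γ > ℵ₀`
(`Ordinal.iSup_lt_of_lt_cof` etc.), `Acc Y δ`, `L δ < δ`, so `L δ ≤ d n` for some `n`; but
`δ > d (n+1) > ε (d n)` gives `d n < L δ`, contradiction.
-/

namespace Pool.H58.AE

open Cardinal Ordinal Set

theorem exists_incr (κ : Cardinal.{0}) (X : Set Ordinal.{0})
    (hX : Cardinal.lift.{1} κ ≤ Cardinal.mk X) :
    ∃ y : Ordinal.{0} → Ordinal.{0}, (∀ ξ < κ.ord, y ξ ∈ X) ∧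
      (∀ ξ < κ.ord, ∀ η < κ.ord, ξ < η → y ξ < y η) := by
  classical
  have hdef : ∀ o, enumOrd X o = sInf (X ∩ {b | ∀ c, c < o → enumOrd X c < b}) := by
    intro o
    conv_lhs => rw [enumOrd]
  set y := enumOrd X with hy
  set T : Ordinal.{0} → Set Ordinal.{0} := fun o => X ∩ {b | ∀ c, c < o → y c < b} with hT
  have hin : ∀ o, (T o).Nonempty → y o ∈ T o := by
    intro o ho
    rw [hdef]
    exact csInf_mem ho
  have hne : ∀ ξ < κ.ord, (T ξ).Nonempty := by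
    by_contra hcon
    push Not at hcon
    obtain ⟨ξ, ⟨hξ, hξe⟩, hmin⟩ := wellFounded_lt.has_min {ξ : Ordinal.{0} | ξ < κ.ord ∧ T ξ = ∅} hcon
    have hX2 : X ⊆ y '' Set.Iio ξ := by
      intro x hx
      have h1 : ∃ c, c < ξ ∧ x ≤ y c := by
        by_contra h2
        push Not at h2
        have : x ∈ T ξ := ⟨hx, h2⟩
        rw [hξe] at this
        exact this
      obtain ⟨c, ⟨hc, hxc⟩, hcmin⟩ := wellFounded_lt.has_min {c : Ordinal.{0} | c < ξ ∧ x ≤ y c} h1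
      refine ⟨c, hc, le_antisymm ?_ hxc⟩
      have h3 : x ∈ T c := by
        refine ⟨hx, fun c' hc' => ?_⟩
        by_contra h4
        exact hcmin c' ⟨hc'.trans hc, not_lt.1 h4⟩ hc'
      rw [hdef]
      exact csInf_le' h3
    have h5 : Cardinal.mk X ≤ Cardinal.lift.{1} ξ.card := by
      rw [← Cardinal.mk_Iio_ordinal]
      exact (Cardinal.mk_le_mk_of_subset hX2).trans Cardinal.mk_image_le
    have h6 : Cardinal.lift.{1} ξ.card < Cardinal.lift.{1} κ :=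
      Cardinal.lift_lt.2 (Cardinal.lt_ord.1 hξ)
    exact absurd (hX.trans h5) (not_le.2 h6)
  refine ⟨y, fun ξ hξ => (hin ξ (hne ξ hξ)).1, fun ξ _ η hη h => (hin η (hne η hη)).2 ξ h⟩

theorem tail_card (κ : Cardinal.{0}) (hκ : ℵ₀ ≤ κ) (y : Ordinal.{0} → Ordinal.{0})
    (hy : ∀ ξ < κ.ord, ∀ η < κ.ord, ξ < η → y ξ < y η) (ξ₀ : Ordinal.{0}) (h0 : ξ₀ < κ.ord) :
    Cardinal.lift.{1} κ ≤ Cardinal.mk (y '' {ξ | ξ₀ ≤ ξ ∧ ξ < κ.ord}) := by
  have hinj : Set.InjOn y {ξ | ξ₀ ≤ ξ ∧ ξ < κ.ord} := by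
    intro a ha b hb hab
    rcases lt_trichotomy a b with h | h | h
    · exact absurd hab (hy a ha.2 b hb.2 h).ne
    · exact h
    · exact absurd hab (hy b hb.2 a ha.2 h).ne'
  rw [Cardinal.mk_image_eq_of_injOn _ _ hinj]
  by_contra hcon
  push Not at hcon
  have h1 : Cardinal.mk (Set.Iio κ.ord) = Cardinal.lift.{1} κ := by
    rw [Cardinal.mk_Iio_ordinal, Cardinal.card_ord]
  have h2 : Cardinal.mk (Set.Iio ξ₀) < Cardinal.lift.{1} κ := by
    rw [Cardinal.mk_Iio_ordinal]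
    exact Cardinal.lift_lt.2 (Cardinal.lt_ord.1 h0)
  have h3 : Set.Iio κ.ord ⊆ Set.Iio ξ₀ ∪ {ξ | ξ₀ ≤ ξ ∧ ξ < κ.ord} := by
    intro a ha
    rcases lt_or_ge a ξ₀ with h | h
    · exact Or.inl h
    · exact Or.inr ⟨h, ha⟩
  have h4 := (Cardinal.mk_le_mk_of_subset h3).trans (Cardinal.mk_union_le _ _)
  rw [h1] at h4
  have h5 : ℵ₀ ≤ Cardinal.lift.{1} κ := by
    rw [← Cardinal.lift_aleph0.{1, 0}, Cardinal.lift_le]
    exact hκ
  exact absurd h4 (not_le.2 (Cardinal.add_lt_of_lt h5 h2 hcon))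

theorem press (Y : Set Ordinal.{0}) (γ : Ordinal.{0}) (hγ : ℵ₀ < γ.cof)
    (hunb : ∀ a < γ, ∃ b ∈ Y, a < b ∧ b < γ) (L : Ordinal.{0} → Ordinal.{0})
    (hL : ∀ δ < γ, Acc Y δ → L δ < δ) :
    ∃ l < γ, ∀ ε < γ, ∃ δ, ε < δ ∧ δ < γ ∧ Acc Y δ ∧ L δ ≤ l := by
  by_contra hcon
  push Not at hcon
  choose! ε hε1 hε2 using hcon
  have hγ0 : 0 < γ := by
    rcases eq_zero_or_pos γ with h | h
    · rw [h, Ordinal.cof_zero] at hγ
      exact absurd hγ not_lt_zero
    · exact h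
  choose! g hg1 hg2 hg3 using hunb
  let d : ℕ → Ordinal.{0} := fun n => Nat.rec (g 0) (fun _ x => g (max x (ε x))) n
  have hd0 : d 0 = g 0 := rfl
  have hds : ∀ n, d (n + 1) = g (max (d n) (ε (d n))) := fun n => rfl
  have hdγ : ∀ n, d n < γ := by
    intro n
    induction n with
    | zero => exact hg3 0 hγ0
    | succ n ih =>
      rw [hds]
      exact hg3 _ (max_lt ih (hε1 _ ih))
  have hmax : ∀ n, max (d n) (ε (d n)) < γ := fun n => max_lt (hdγ n) (hε1 _ (hdγ n))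
  have hdY : ∀ n, d (n + 1) ∈ Y := fun n => by
    rw [hds]
    exact hg1 _ (hmax n)
  have hdlt : ∀ n, d n < d (n + 1) := fun n => by
    rw [hds]
    exact (le_max_left _ _).trans_lt (hg2 _ (hmax n))
  have hdε : ∀ n, ε (d n) < d (n + 1) := fun n => by
    rw [hds]
    exact (le_max_right _ _).trans_lt (hg2 _ (hmax n))
  set δ : Ordinal.{0} := ⨆ n, d n with hδ
  have hle : ∀ n, d n ≤ δ := fun n => Ordinal.le_iSup d n
  have hlt : ∀ n, d n < δ := fun n => (hdlt n).trans_le (hle (n + 1))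
  have hδγ : δ < γ := by
    refine Ordinal.iSup_lt_of_lt_cof ?_ hdγ
    rw [Cardinal.mk_nat]
    exact hγ
  have hacc : Acc Y δ := by
    refine ⟨fun h => ?_, fun a ha => ?_⟩
    · have := hlt 0
      rw [h] at this
      exact absurd this not_lt_zero
    · obtain ⟨n, hn⟩ := (Ordinal.lt_iSup_iff).1 ha
      exact ⟨d (n + 1), hdY n, hn.trans (hdlt n), hlt (n + 1)⟩
  obtain ⟨n, hn⟩ := (Ordinal.lt_iSup_iff).1 (hL δ hδγ hacc)
  exact absurd (hε2 (d n) (hdγ n) δ ((hdε n).trans (hlt (n + 1))) hδγ hacc) (not_lt.2 hn.le)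

end Pool.H58.AE
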