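import Pool.Agent.H58.AE.Defs

set_option autoImplicit false

/-!
MODULE FAM.  A family of functions `F x : Ordinal → Bool` (`x < Θ`) such that `F x` and `F y`
(`x < y`) differ below `(s (succ (P y x))).ord`.

For `i < m` let `I i = [(s i).ord, (s (succ i)).ord)` (a set of ordinals); these are pairwise
disjoint for different `i` (if `i < j` then `succ i ≤ j`, so `s (succ i) ≤ s j`), `succ i < m` as
`m` is a limit, and `#(I i) = s (succ i)` (since `s i < s (succ i)`, infinite).

KEY LEMMA: for `y < Θ` and any family `(f x)` (`x < y`) of functions `Ordinal → Bool` there is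
`g : Ordinal → Bool` such that for all `x < y` there is `j ∈ I (P y x)` with `f x j ≠ g j`.
Proof: for `i < m` the set `T i = {x < y | P y x ≤ i}` has at most `2 ^ s i` elements, and there are
`2 ^ s (succ i) > 2 ^ s i` functions on `I i`; so there is a function `g i` on `I i` different from
all the restrictions `f x | I i`, `x ∈ T i`.  Glue the `g i` (disjoint blocks) to one `g`.
For `x < y` let `i = P y x`; then `x ∈ T i` and `f x` and `g` differ on `I i`.

Then define `F` by well-founded recursion (`WellFounded.fix` on `Ordinal`, or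
`exists_fun_of_...`): `F y` is the `g` of the key lemma for the family `(F x)`, `x < y`.
-/

namespace Pool.H58.AE

open Cardinal Ordinal Set

theorem fam_block {a b : Cardinal.{0}} (hb : ℵ₀ ≤ b) (hab : a < b) :
    Cardinal.lift.{1} b ≤ Cardinal.mk (Set.Ico a.ord b.ord) := by
  by_contra h
  rw [not_le] at h
  have hbb : ℵ₀ ≤ Cardinal.lift.{1} b := by
    rw [← Cardinal.lift_aleph0.{1, 0}]
    exact Cardinal.lift_le.mpr hb
  have h1 : Cardinal.mk (Set.Iio b.ord) = Cardinal.lift.{1} b := by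
    rw [Cardinal.mk_Iio_ordinal, Cardinal.card_ord]
  have h2 : Cardinal.mk (Set.Iio a.ord) = Cardinal.lift.{1} a := by
    rw [Cardinal.mk_Iio_ordinal, Cardinal.card_ord]
  have h3 : Set.Iio b.ord ⊆ Set.Iio a.ord ∪ Set.Ico a.ord b.ord := by
    intro x hx
    rcases lt_or_ge x a.ord with h4 | h4
    · exact Or.inl h4
    · exact Or.inr ⟨h4, hx⟩
  have h4 := (Cardinal.mk_le_mk_of_subset h3).trans (Cardinal.mk_union_le _ _)
  rw [h1, h2] at h4
  exact absurd h4 (not_le.mpr (Cardinal.add_lt_of_lt hbb (Cardinal.lift_lt.mpr hab) h))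

theorem fam_new (T I : Set Ordinal.{0}) (f : Ordinal.{0} → Ordinal.{0} → Bool)
    (h : Cardinal.mk T < (2 : Cardinal.{1}) ^ Cardinal.mk I) :
    ∃ g : Ordinal.{0} → Bool, ∀ x ∈ T, ∃ j ∈ I, f x j ≠ g j := by
  classical
  by_contra hcon
  push Not at hcon
  have hsurj : Function.Surjective (fun (x : T) (j : I) => f x.1 j.1) := by
    intro g'
    obtain ⟨x, hx, hx'⟩ := hcon (fun j => if h : j ∈ I then g' ⟨j, h⟩ else false)
    refine ⟨⟨x, hx⟩, ?_⟩
    funext j
    have h1 := hx' j.1 j.2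
    rw [dif_pos j.2] at h1
    exact h1
  have h2 := Cardinal.mk_le_of_surjective hsurj
  have h3 : Cardinal.mk (I → Bool) = (2 : Cardinal.{1}) ^ Cardinal.mk I := by
    simp
  rw [h3] at h2
  exact absurd h2 (not_le.mpr h)

theorem fam_key (m Θ : Ordinal.{0}) (s : Ordinal.{0} → Cardinal.{0})
    (P : Ordinal.{0} → Ordinal.{0} → Ordinal.{0}) (hm : Order.IsSuccLimit m)
    (hs0 : ∀ i < m, ℵ₀ ≤ s i)
    (hs1 : ∀ i < m, ∀ j < m, i < j →
      s i < s j ∧ (2 : Cardinal.{0}) ^ s i < (2 : Cardinal.{0}) ^ s j)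
    (hN : ∀ β < Θ, ∀ i < m, Cardinal.mk {α : Ordinal.{0} | α < β ∧ P β α ≤ i} ≤
      Cardinal.lift.{1} ((2 : Cardinal.{0}) ^ s i))
    (hP : ∀ β < Θ, ∀ α < β, P β α < m) (y : Ordinal.{0}) (hy : y < Θ)
    (f : Ordinal.{0} → Ordinal.{0} → Bool) :
    ∃ g : Ordinal.{0} → Bool, ∀ x < y, ∃ j < (s (Order.succ (P y x))).ord, f x j ≠ g j := by
  classical
  have h1 : ∀ i : Ordinal.{0}, ∃ g : Ordinal.{0} → Bool, i < m →
      ∀ x ∈ {α : Ordinal.{0} | α < y ∧ P y α ≤ i},
        ∃ j ∈ Set.Ico (s i).ord (s (Order.succ i)).ord, f x j ≠ g j := by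
    intro i
    by_cases hi : i < m
    · have hi' : Order.succ i < m := hm.succ_lt hi
      obtain ⟨h2, h3⟩ := hs1 i hi (Order.succ i) hi' (Order.lt_succ i)
      obtain ⟨g, hg⟩ := fam_new {α : Ordinal.{0} | α < y ∧ P y α ≤ i}
        (Set.Ico (s i).ord (s (Order.succ i)).ord) f (by
          refine (hN y hy i hi).trans_lt ?_
          refine (Cardinal.lift_lt.mpr h3).trans_le ?_
          rw [Cardinal.lift_power, Cardinal.lift_two]
          exact Cardinal.power_le_power_left two_ne_zero (fam_block (hs0 _ hi') h2))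
      exact ⟨g, fun _ => hg⟩
    · exact ⟨fun _ => false, fun h => absurd h hi⟩
  choose G hG using h1
  have hdisj : ∀ i j : Ordinal.{0}, i < m → j < m → ∀ x,
      x ∈ Set.Ico (s i).ord (s (Order.succ i)).ord →
      x ∈ Set.Ico (s j).ord (s (Order.succ j)).ord → ¬ i < j := by
    intro i j hi hj x hx hx' hij
    have h2 : s (Order.succ i) ≤ s j := by
      rcases (Order.succ_le_of_lt hij).eq_or_lt with h3 | h3
      · rw [h3]
      · exact (hs1 _ (hm.succ_lt hi) j hj h3).1.le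
    exact absurd (hx.2.trans_le ((Cardinal.ord_le_ord.mpr h2).trans hx'.1)) (lt_irrefl _)
  refine ⟨fun j => if h : ∃ i, i < m ∧ j ∈ Set.Ico (s i).ord (s (Order.succ i)).ord then
    G h.choose j else false, ?_⟩
  intro x hx
  have hi : P y x < m := hP y hy x hx
  obtain ⟨j, hj, hj'⟩ := hG (P y x) hi x ⟨hx, le_refl _⟩
  refine ⟨j, hj.2, ?_⟩
  have hex : ∃ i, i < m ∧ j ∈ Set.Ico (s i).ord (s (Order.succ i)).ord := ⟨P y x, hi, hj⟩
  simp only [dif_pos hex]
  have h3 : hex.choose = P y x := by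
    rcases lt_trichotomy hex.choose (P y x) with h4 | h4 | h4
    · exact absurd h4 (hdisj _ _ hex.choose_spec.1 hi j hex.choose_spec.2 hj)
    · exact h4
    · exact absurd h4 (hdisj _ _ hi hex.choose_spec.1 j hj hex.choose_spec.2)
  rw [h3]
  exact hj'

theorem exists_F (m Θ : Ordinal.{0}) (s : Ordinal.{0} → Cardinal.{0})
    (P : Ordinal.{0} → Ordinal.{0} → Ordinal.{0}) (hm : Order.IsSuccLimit m)
    (hs0 : ∀ i < m, ℵ₀ ≤ s i)
    (hs1 : ∀ i < m, ∀ j < m, i < j →
      s i < s j ∧ (2 : Cardinal.{0}) ^ s i < (2 : Cardinal.{0}) ^ s j)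
    (hN : ∀ β < Θ, ∀ i < m, Cardinal.mk {α : Ordinal.{0} | α < β ∧ P β α ≤ i} ≤
      Cardinal.lift.{1} ((2 : Cardinal.{0}) ^ s i))
    (hP : ∀ β < Θ, ∀ α < β, P β α < m) :
    ∃ F : Ordinal.{0} → Ordinal.{0} → Bool, ∀ y < Θ, ∀ x < y,
      ∃ j < (s (Order.succ (P y x))).ord, F x j ≠ F y j := by
  classical
  have key : ∀ (y : Ordinal.{0}) (f : Ordinal.{0} → Ordinal.{0} → Bool),
      ∃ g : Ordinal.{0} → Bool, y < Θ →
        ∀ x < y, ∃ j < (s (Order.succ (P y x))).ord, f x j ≠ g j := by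
    intro y f
    by_cases hy : y < Θ
    · obtain ⟨g, hg⟩ := fam_key m Θ s P hm hs0 hs1 hN hP y hy f
      exact ⟨g, fun _ => hg⟩
    · exact ⟨fun _ => false, fun h => absurd h hy⟩
  choose Gf hGf using key
  obtain ⟨F, hF⟩ : ∃ F : Ordinal.{0} → Ordinal.{0} → Bool,
      ∀ y, F y = Gf y (fun x => if x < y then F x else fun _ => false) := by
    refine ⟨WellFounded.fix (wellFounded_lt (α := Ordinal.{0}))
      (fun y ih => Gf y (fun x => if h : x < y then ih x h else fun _ => false)), ?_⟩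
    intro y
    rw [WellFounded.fix_eq]
    congr 1
  refine ⟨F, ?_⟩
  intro y hy x hx
  obtain ⟨j, hj, hj'⟩ := hGf y (fun x => if x < y then F x else fun _ => false) hy x hx
  refine ⟨j, hj, ?_⟩
  rw [← hF y] at hj'
  simp only [if_pos hx] at hj'
  exact hj'

end Pool.H58.AE
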