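import Pool.Agent.H58.AE.Defs

set_option autoImplicit false

/-!
MODULE INF.  A `PairCol` needs infinitely many colours.

Suppose `ι` is finite.  Claim: for every `R : Finset ι` and every `A ⊆ Iio μ.ord` which is unbounded
(`∀ c < μ.ord, ∃ a ∈ A, c ≤ a`) and all whose pairs have colours in `R` or none, there is an
unbounded `H ⊆ A` without coloured pairs.  (With `R = univ`, `A = Iio μ.ord` this contradicts
`hG.bdd`.)
Induction on `R`.  `R = ∅`: `H = A`.  Step: if for some `i ∈ R`, `x ∈ A` the set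
`N = {y ∈ A | G x y = some i}` is unbounded, then colour `i` does not occur on `N` (triangle), so the
claim for `R.erase i` and `N` applies.  Otherwise let `H ⊆ A` be a maximal subset without coloured
pairs (Zorn: `zorn_subset`).  If `H` is bounded, every `y ∈ A \ H` has `G x y = some i` for some
`x ∈ H`, `i ∈ R` (maximality; `G` symmetric); so `A ⊆ H ∪ ⋃ x ∈ H, ⋃ i ∈ R, N x i`, a union of fewer
than `μ` sets each bounded below `μ.ord` (`#H < μ` as `H` is bounded below `μ.ord`); by regularity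
of `μ` the union is bounded (take suprema of the bounds, `Ordinal.iSup_lt_of_lt_cof`/
`sSup_lt_of_lt_cof`), contradiction.  So `H` is unbounded.
-/

namespace Pool.H58.AE

open Cardinal Ordinal Set

theorem inf_claim {ι : Type} {μ : Cardinal.{0}} (hμ : μ.IsRegular)
    {G : Ordinal.{0} → Ordinal.{0} → Option ι} (hG : PairCol μ.ord G) (R : Finset ι) :
    ∀ A : Set Ordinal.{0}, A ⊆ Set.Iio μ.ord → (∀ c < μ.ord, ∃ a ∈ A, c ≤ a) →
      (∀ a ∈ A, ∀ b ∈ A, ∀ i, G a b = some i → i ∈ R) →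
      ∃ H : Set Ordinal.{0}, H ⊆ A ∧ (∀ c < μ.ord, ∃ a ∈ H, c ≤ a) ∧
        ∀ a ∈ H, ∀ b ∈ H, G a b = none := by
  classical
  induction R using Finset.strongInduction with
  | H R ih =>
  intro A hA hunb hcol
  by_cases h1 : ∃ i ∈ R, ∃ x ∈ A, ∀ c < μ.ord, ∃ a ∈ {y ∈ A | G x y = some i}, c ≤ a
  · obtain ⟨i, hi, x, hx, hN⟩ := h1
    obtain ⟨H, hH1, hH2, hH3⟩ := ih (R.erase i) (Finset.erase_ssubset hi)
      {y ∈ A | G x y = some i} (fun y hy => hA hy.1) hN (by
        rintro a ⟨ha, ha2⟩ b ⟨hb, hb2⟩ j hj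
        refine Finset.mem_erase.2 ⟨?_, hcol a ha b hb j hj⟩
        rintro rfl
        exact hG.tri x a b j ⟨ha2, hb2, hj⟩)
    exact ⟨H, fun y hy => (hH1 hy).1, hH2, hH3⟩
  · push Not at h1
    have hpos : (⊥ : Ordinal.{0}) < μ.ord := by
      have h2 : (0 : Ordinal.{0}) < μ.ord := by
        rw [Cardinal.lt_ord, Ordinal.card_zero]
        exact hμ.pos
      exact h2
    have hd : ∀ x ∈ A, ∃ d < μ.ord, ∀ i ∈ R, ∀ y ∈ A, G x y = some i → y < d := by
      intro x hx
      choose! c hc1 hc2 using fun i (hi : i ∈ R) => h1 i hi x hx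
      refine ⟨R.sup c, (Finset.sup_lt_iff hpos).2 hc1, fun i hi y hy hxy => ?_⟩
      exact (hc2 i hi y ⟨hy, hxy⟩).trans_le (Finset.le_sup hi)
    choose! d hd1 hd2 using hd
    obtain ⟨H, hH⟩ := zorn_subset {H : Set Ordinal.{0} | H ⊆ A ∧ ∀ a ∈ H, ∀ b ∈ H, G a b = none} (by
      intro c hc hch
      refine ⟨⋃₀ c, ⟨Set.sUnion_subset fun s hs => (hc hs).1, ?_⟩, fun s hs =>
        Set.subset_sUnion_of_mem hs⟩
      rintro a ⟨s, hs, ha⟩ b ⟨t, ht, hb⟩
      rcases hch.total hs ht with h | h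
      · exact (hc ht).2 a (h ha) b hb
      · exact (hc hs).2 a ha b (h hb))
    have hHA : H ⊆ A := hH.prop.1
    refine ⟨H, hHA, ?_, hH.prop.2⟩
    by_contra hbdd
    push Not at hbdd
    obtain ⟨c0, hc0, hHc⟩ := hbdd
    have hcof : (Ordinal.lift.{1} μ.ord).cof = Cardinal.lift.{1} μ := by
      rw [← Ordinal.lift_cof, hμ.cof_ord]
    have hsup : sSup (d '' H) < μ.ord := by
      refine Ordinal.sSup_lt_of_lt_cof ?_ ?_
      · rw [hcof]
        refine Cardinal.mk_image_le.trans_lt ?_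
        have h3 : Cardinal.mk H ≤ Cardinal.mk (Set.Iio c0) :=
          Cardinal.mk_le_mk_of_subset fun a ha => hHc a ha
        refine h3.trans_lt ?_
        rw [Cardinal.mk_Iio_ordinal]
        exact Cardinal.lift_lt.2 (Cardinal.lt_ord.1 hc0)
      · rintro _ ⟨x, hx, rfl⟩
        exact hd1 x (hHA hx)
    have hbb : BddAbove (d '' H) := ⟨μ.ord, by
      rintro _ ⟨x, hx, rfl⟩
      exact (hd1 x (hHA hx)).le⟩
    obtain ⟨y, hy, hyc⟩ := hunb (max c0 (sSup (d '' H))) (max_lt hc0 hsup)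
    have hyH : y ∉ H := fun h => absurd (hHc y h) (not_lt.2 ((le_max_left _ _).trans hyc))
    have hyx : ∃ x ∈ H, G x y ≠ none := by
      by_contra hcon
      push Not at hcon
      have h4 : insert y H ∈ {H : Set Ordinal.{0} | H ⊆ A ∧ ∀ a ∈ H, ∀ b ∈ H, G a b = none} := by
        refine ⟨Set.insert_subset hy hHA, ?_⟩
        rintro a (rfl | ha) b (rfl | hb)
        · exact hG.diag _
        · rw [hG.symm]
          exact hcon b hb
        · exact hcon a ha
        · exact hH.prop.2 a ha b hb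
      exact hyH (hH.2 h4 (Set.subset_insert _ _) (Set.mem_insert _ _))
    obtain ⟨x, hx, hxy⟩ := hyx
    obtain ⟨i, hi⟩ := Option.ne_none_iff_exists'.1 hxy
    have h5 := hd2 x (hHA hx) i (hcol x (hHA hx) y hy i hi) y hy hi
    have h6 : d x ≤ sSup (d '' H) := le_csSup hbb ⟨x, hx, rfl⟩
    exact absurd (h5.trans_le (h6.trans ((le_max_right _ _).trans hyc))) (lt_irrefl _)

theorem infinite_of_pairCol {ι : Type} {μ : Cardinal.{0}} (hμ : μ.IsRegular)
    {G : Ordinal.{0} → Ordinal.{0} → Option ι} (hG : PairCol μ.ord G) : Infinite ι := by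
  by_contra hfin
  rw [not_infinite_iff_finite] at hfin
  have := Fintype.ofFinite ι
  obtain ⟨H, hH1, hH2, hH3⟩ := inf_claim hμ hG Finset.univ (Set.Iio μ.ord) subset_rfl
    (fun c hc => ⟨c, hc, le_rfl⟩) (fun _ _ _ _ i _ => Finset.mem_univ i)
  obtain ⟨c, hc, hcH⟩ := hG.bdd H hH1 hH3
  obtain ⟨a, ha, hca⟩ := hH2 c hc
  exact absurd (hcH a ha) (not_lt.2 hca)

end Pool.H58.AE
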