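import Pool.Agent.H58.AE.PWA

set_option autoImplicit false

/-!
MODULE NOR.  For `β < Θ` the set `N(β) = {α < β | ρ(α, β) ≤ i}` has at most `L` elements, if
`hh ξ ≤ i` implies `ξ < L.ord` for `ξ < lam`.

Strong induction on `β`.  Let `D = {b ∈ C β | rk (C β) b < L.ord}`; `rk (C β)` is injective on
`D` (`rk_injOn`) with values in `Iio L.ord`, so `#D ≤ lift L` (`Cardinal.mk_Iio_ordinal`,
`card_ord`, `Cardinal.mk_le_of_injective` or `mk_image_eq_of_injOn`).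
For `α ∈ N(β)` let `b = nx (C β) α`; by `pw_le_iff`: `hh (rk (C β) α) ≤ i`, so
`rk (C β) α < L.ord` (use `hW.rkl`); `rk (C β) b = rk (C β) α` (`rk_gap`: no element of `C β` in
`[α, b)`), so `b ∈ D`; and `ρ(α, b) ≤ i`, so `α = b` or `α ∈ N(b)`.
Hence `N(β) ⊆ ⋃ b ∈ D, ({b} ∪ N(b))`, where `b < β < Θ`, of cardinality
`≤ L * (1 + L) = L` (`Cardinal.mk_biUnion_le`/`mk_iUnion_le`, in universe 1, `lift L` infinite).
-/

namespace Pool.H58.AE

open Cardinal Ordinal Set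

theorem norm_pw {C : Ordinal.{0} → Set Ordinal.{0}} {Θ lam : Ordinal.{0}} (hW : Walk C Θ lam)
    (hh : Ordinal.{0} → Ordinal.{0}) (L : Cardinal.{0}) (hL : ℵ₀ ≤ L) (i : Ordinal.{0})
    (hi : ∀ ξ < lam, hh ξ ≤ i → ξ < L.ord) :
    ∀ β < Θ, Cardinal.mk {α : Ordinal.{0} | α < β ∧ pw C hh β α ≤ i} ≤ Cardinal.lift.{1} L := by
  intro β
  induction β using WellFoundedLT.induction with
  | ind β ih =>
  intro hβ
  have hLL : ℵ₀ ≤ Cardinal.lift.{1} L := by
    rw [← Cardinal.lift_aleph0.{1, 0}]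
    exact Cardinal.lift_le.mpr hL
  have hD : Cardinal.mk {b : Ordinal.{0} | b ∈ C β ∧ rk (C β) b < L.ord} ≤
      Cardinal.lift.{1} L := by
    have hinj : Function.Injective
        (fun b : {b : Ordinal.{0} | b ∈ C β ∧ rk (C β) b < L.ord} =>
          (⟨rk (C β) b.1, b.2.2⟩ : Set.Iio L.ord)) := by
      intro b c hbc
      have h1 : rk (C β) b.1 = rk (C β) c.1 := congrArg Subtype.val hbc
      exact Subtype.ext (rk_injOn (C β) b.2.1 c.2.1 h1)
    have h2 := Cardinal.mk_le_of_injective hinj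
    rw [Cardinal.mk_Iio_ordinal, Cardinal.card_ord] at h2
    exact h2
  have hsub : {α : Ordinal.{0} | α < β ∧ pw C hh β α ≤ i} ⊆
      ⋃ b : {b : Ordinal.{0} | b ∈ C β ∧ rk (C β) b < L.ord},
        ({b.1} ∪ {α : Ordinal.{0} | α < b.1 ∧ pw C hh b.1 α ≤ i}) := by
    rintro α ⟨hα, hαi⟩
    obtain ⟨hn1, hn2, hn3⟩ := nx_mem hW hβ hα
    obtain ⟨h1, h2, -⟩ := (pw_le_iff hW hh hβ hα i).mp hαi
    have h3 : rk (C β) α < L.ord := hi _ (hW.rkl β hβ α hα) h1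
    have h4 : rk (C β) α = rk (C β) (nx (C β) α) := by
      refine rk_gap hn2 ?_
      intro ξ hξ hξ2
      by_contra h5
      exact absurd (nx_le hξ (not_lt.mp h5)) (not_le.mpr hξ2)
    refine Set.mem_iUnion.mpr ⟨⟨nx (C β) α, hn1, h4 ▸ h3⟩, ?_⟩
    rcases hn2.eq_or_lt with h5 | h5
    · exact Or.inl h5
    · exact Or.inr ⟨h5, h2⟩
  refine (Cardinal.mk_le_mk_of_subset hsub).trans ?_
  refine (Cardinal.mk_iUnion_le _).trans ?_
  have hsup : ∀ b : {b : Ordinal.{0} | b ∈ C β ∧ rk (C β) b < L.ord},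
      Cardinal.mk (({b.1} ∪ {α : Ordinal.{0} | α < b.1 ∧ pw C hh b.1 α ≤ i} :
        Set Ordinal.{0})) ≤ Cardinal.lift.{1} L := by
    intro b
    have hb : b.1 < β := hW.sub β hβ b.2.1
    refine (Cardinal.mk_union_le _ _).trans ?_
    refine Cardinal.add_le_of_le hLL ?_ (ih b.1 hb (hb.trans hβ))
    rw [Cardinal.mk_singleton]
    exact Cardinal.one_le_aleph0.trans hLL
  calc _ ≤ Cardinal.lift.{1} L * Cardinal.lift.{1} L :=
        mul_le_mul' hD (ciSup_le' hsup)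
    _ = Cardinal.lift.{1} L := Cardinal.mul_eq_self hLL

end Pool.H58.AE
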