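import Pool.Agent.H58.AE.Defs

set_option autoImplicit false

/-!
MODULE PAI.  From the pair colouring `g` of `Finset β` to a `PairCol` on the ordinals below `μ.ord`.

Let `e : Iio μ.ord ≃ β` be a bijection (`#β = μ`; `Cardinal.mk_Iio_ordinal`).  Put
`G a b = g {e a, e b}` for `a ≠ b` below `μ.ord` and `none` otherwise.
* `symm`, `diag` clear.
* `tri`: if `G a b = G a c = G b c = some i` then `a, b, c` are different and below `μ.ord`, and
  `s = {e a, e b, e c}` has three elements; all its two-element subsets have colour `some i`,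
  against `h2`.
* `bdd`: let `H ⊆ Iio μ.ord` without coloured pair, and suppose `H` is not bounded below `μ.ord`.
  As `μ` is regular, `#H = μ` (a subset of `μ.ord` of smaller cardinality is bounded:
  `Ordinal.sSup_lt_of_lt_cof` or `Order.cof_le`), so `e '' H ⊆ β` has cardinality `μ`, and `h1`
  gives a coloured pair.
-/

namespace Pool.H58.AE

open Cardinal Ordinal Set

theorem exists_pairCol {μ : Cardinal.{0}} (hμ : μ.IsRegular) {β ι : Type}
    (hβ : Cardinal.mk β = μ) (g : Finset β → Option ι)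
    (h1 : ∀ H : Set β, Cardinal.mk H = μ →
      ∃ s : Finset β, (↑s : Set β) ⊆ H ∧ s.card = 2 ∧ g s ≠ none)
    (h2 : ∀ i : ι, ∀ s : Finset β, s.card = 3 →
      ∃ t : Finset β, t ⊆ s ∧ t.card = 2 ∧ g t ≠ some i) :
    ∃ G : Ordinal.{0} → Ordinal.{0} → Option ι, PairCol μ.ord G := by
  classical
  obtain ⟨e⟩ : Nonempty (Iio μ.ord ≃ β) := by
    rw [← Cardinal.lift_mk_eq', Cardinal.mk_Iio_ordinal, Cardinal.card_ord, hβ]
    simp
  set G : Ordinal.{0} → Ordinal.{0} → Option ι := fun a b =>
    if h : a < μ.ord ∧ b < μ.ord ∧ a ≠ b then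
      g {e ⟨a, h.1⟩, e ⟨b, h.2.1⟩} else none with hG
  have hGeq : ∀ (a b : Ordinal.{0}) (ha : a < μ.ord) (hb : b < μ.ord) (_ : a ≠ b),
      G a b = g {e ⟨a, ha⟩, e ⟨b, hb⟩} := by
    intro a b ha hb hab
    simp only [hG]
    rw [dif_pos ⟨ha, hb, hab⟩]
  have hGsome : ∀ (a b : Ordinal.{0}) (i : ι), G a b = some i →
      a < μ.ord ∧ b < μ.ord ∧ a ≠ b := by
    intro a b i h
    by_contra hc
    simp only [hG] at h
    rw [dif_neg hc] at h
    exact absurd h (by simp)
  refine ⟨G, ?_, ?_, ?_, ?_⟩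
  · intro a b
    by_cases h : a < μ.ord ∧ b < μ.ord ∧ a ≠ b
    · rw [hGeq a b h.1 h.2.1 h.2.2, hGeq b a h.2.1 h.1 h.2.2.symm, Finset.pair_comm]
    · have h' : ¬ (b < μ.ord ∧ a < μ.ord ∧ b ≠ a) := fun k => h ⟨k.2.1, k.1, k.2.2.symm⟩
      simp only [hG]
      rw [dif_neg h, dif_neg h']
  · intro a
    simp only [hG]
    rw [dif_neg]
    rintro ⟨_, _, h⟩
    exact h rfl
  · rintro a b c i ⟨hab, hac, hbc⟩
    obtain ⟨ha, hb, nab⟩ := hGsome a b i hab
    obtain ⟨_, hc, nac⟩ := hGsome a c i hac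
    obtain ⟨_, _, nbc⟩ := hGsome b c i hbc
    rw [hGeq a b ha hb nab] at hab
    rw [hGeq a c ha hc nac] at hac
    rw [hGeq b c hb hc nbc] at hbc
    have ne : ∀ (x y : Ordinal.{0}) (hx : x < μ.ord) (hy : y < μ.ord), x ≠ y →
        e ⟨x, hx⟩ ≠ e ⟨y, hy⟩ := by
      intro x y hx hy hxy h
      exact hxy (congrArg Subtype.val (e.injective h))
    obtain ⟨t, hts, htc, htg⟩ := h2 i {e ⟨a, ha⟩, e ⟨b, hb⟩, e ⟨c, hc⟩}
      (Finset.card_eq_three.mpr ⟨_, _, _, ne a b ha hb nab, ne a c ha hc nac, ne b c hb hc nbc, rfl⟩)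
    obtain ⟨x, y, hxy, rfl⟩ := Finset.card_eq_two.mp htc
    have hx := hts (Finset.mem_insert_self x {y})
    have hy := hts (Finset.mem_insert_of_mem (Finset.mem_singleton_self y))
    simp only [Finset.mem_insert, Finset.mem_singleton] at hx hy
    rcases hx with rfl | rfl | rfl <;> rcases hy with rfl | rfl | rfl
    · exact hxy rfl
    · exact htg hab
    · exact htg hac
    · exact htg (by rw [Finset.pair_comm]; exact hab)
    · exact hxy rfl
    · exact htg hbc
    · exact htg (by rw [Finset.pair_comm]; exact hac)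
    · exact htg (by rw [Finset.pair_comm]; exact hbc)
    · exact hxy rfl
  · intro H hH hnone
    by_contra hbd
    push Not at hbd
    set H' : Set β := {x | (e.symm x).1 ∈ H} with hH'
    have hcard : Cardinal.mk H' = μ := by
      apply le_antisymm
      · rw [← hβ]
        exact Cardinal.mk_set_le _
      · by_contra hlt
        rw [not_le] at hlt
        have h3 : (⨆ x : H', ((e.symm x.1).1 + 1)) < μ.ord := by
          apply iSup_add_one_lt_of_lt_cof
          · rw [hμ.cof_ord]
            exact hlt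
          · intro x
            exact (e.symm x.1).2
        obtain ⟨a, ha, hle⟩ := hbd _ h3
        have ham : e ⟨a, hH ha⟩ ∈ H' := by
          rw [hH', Set.mem_ofPred_eq, Equiv.symm_apply_apply]
          exact ha
        have h4 : a + 1 ≤ ⨆ x : H', ((e.symm x.1).1 + 1) := by
          have := Ordinal.le_iSup (fun x : H' => ((e.symm x.1).1 + 1)) ⟨_, ham⟩
          simpa using this
        have h5 := lt_of_lt_of_le (lt_add_one a) h4
        exact absurd hle (not_le.mpr h5)
    obtain ⟨s, hsH, hs2, hsg⟩ := h1 H' hcard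
    obtain ⟨x, y, hxy, rfl⟩ := Finset.card_eq_two.mp hs2
    have hx : (e.symm x).1 ∈ H := hsH (by simp)
    have hy : (e.symm y).1 ∈ H := hsH (by simp)
    have hne : (e.symm x).1 ≠ (e.symm y).1 := by
      intro h
      exact hxy (e.symm.injective (Subtype.ext h))
    have h6 := hnone _ hx _ hy
    rw [hGeq _ _ (e.symm x).2 (e.symm y).2 hne] at h6
    simp only [Subtype.coe_eta, Equiv.apply_symm_apply] at h6
    exact hsg h6

end Pool.H58.AE
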