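import Pool.Agent.H58.AE.RK

set_option autoImplicit false

/-!
MODULE SQW.  From the square principle to a `Walk` system on `lam⁺`.

Let `C` be the square sequence.  Define `D β = C β` for limit `β`, `D (succ β') = {β'}`, `D 0 = ∅`
(e.g. `D β = if IsSuccLimit β then C β else {b | Order.succ b = β}`).
* `sub`: clear.
* `unb`: for `β = succ β'`, `a < β` gives `a ≤ β'`; for `β` limit use unboundedness of `C β`.
* `closed`, `coh`: `{β'}` has no accumulation point (if `Acc {β'} δ`: with `a` = 0 (`δ ≠ 0`), we get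
  `β' < δ`, then with `a = β'` a contradiction); for limit `β` closedness is the hypothesis; for
  coherence note that an accumulation point `δ` is a limit ordinal (`Acc C δ` implies
  `Order.IsSuccLimit δ`), so `D δ = C δ = C β ∩ Iio δ`.
* `rkl`: for `β = succ β'`, `a < β`: `rk {β'} a = 0` as `β'` is not `< a` (use `rk_le_...` or
  `rk_congr` with `∅`, or directly `rk_eq`), and `0 < lam.ord`.  For `β` limit: pick `b ∈ C β`,
  `a ≤ b`; `rk (C β) a ≤ rk (C β) b ≤ e b < lam.ord` (`rk_mono`, `rk_le_of_strictMonoOn`), where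
  `e : Ordinal → Ordinal` is strictly monotone on `C β` with values `< lam.ord`.  Such an `e` exists
  because the order type of `C β` is `≤ lift lam.ord`: `Ordinal.type (·<·) ≤ lift lam.ord` and
  `Ordinal.typein`/`Ordinal.lift_lt`, `Ordinal.mem_range_lift_of_le`; for `b ∈ C β` take
  `e b` with `lift (e b) = typein (·<·) ⟨b, hb⟩ < type ≤ lift lam.ord`.
-/

namespace Pool.H58.AE

open Cardinal Ordinal Set

theorem sqw_acc_limit {C : Set Ordinal.{0}} {δ : Ordinal.{0}} (h : Acc C δ) :
    Order.IsSuccLimit δ := by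
  refine ⟨?_, ?_⟩
  · intro hm
    exact h.1 (le_antisymm (hm zero_le) zero_le)
  · intro a ha
    obtain ⟨b, -, hb1, hb2⟩ := h.2 a ha.lt
    exact ha.2 hb1 hb2

theorem sqw_no_acc {β δ : Ordinal.{0}} (hδ : δ < β)
    (h : Acc {b | Order.succ b = β} δ) : False := by
  obtain ⟨b, hb, -, hb2⟩ := h.2 0 (pos_iff_ne_zero.2 h.1)
  have hb' : Order.succ b = β := hb
  have := Order.succ_le_of_lt hb2
  rw [hb'] at this
  exact absurd hδ (not_lt.2 this)

theorem sqw_rk_empty (a : Ordinal.{0}) : rk ∅ a = 0 := by
  rw [rk_eq]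
  refine le_antisymm (Ordinal.iSup_le fun i => ?_) zero_le
  simp

theorem sqw_e {lam : Cardinal.{0}} (C : Set Ordinal.{0})
    (hC : Ordinal.type ((· < ·) : C → C → Prop) ≤ Ordinal.lift.{1} lam.ord) :
    ∃ e : Ordinal.{0} → Ordinal.{0}, StrictMonoOn e C ∧ ∀ b ∈ C, e b < lam.ord := by
  classical
  have h1 : ∀ b : C, ∃ o : Ordinal.{0}, Ordinal.lift.{1} o =
      Ordinal.typein ((· < ·) : C → C → Prop) b := by
    intro b
    have h2 : Ordinal.typein ((· < ·) : C → C → Prop) b ≤ Ordinal.lift.{1} lam.ord :=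
      (Ordinal.typein_lt_type _ b).le.trans hC
    exact Ordinal.mem_range_lift_of_le h2
  choose o ho using h1
  refine ⟨fun b => if hb : b ∈ C then o ⟨b, hb⟩ else 0, ?_, ?_⟩
  · intro x hx y hy hxy
    simp only [dif_pos hx, dif_pos hy]
    rw [← Ordinal.lift_lt.{1, 0}, ho, ho, Ordinal.typein_lt_typein]
    exact hxy
  · intro b hb
    simp only [dif_pos hb]
    rw [← Ordinal.lift_lt.{1, 0}, ho]
    exact (Ordinal.typein_lt_type _ _).trans_le hC

theorem walk_of_square {lam : Cardinal.{0}} (hlam : ℵ₀ ≤ lam) (h : Square lam) :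
    ∃ C : Ordinal.{0} → Set Ordinal.{0}, Walk C (Order.succ lam).ord lam.ord := by
  classical
  obtain ⟨C, hC⟩ := h
  refine ⟨fun β => if Order.IsSuccLimit β then C β else {b | Order.succ b = β}, ?_, ?_, ?_, ?_, ?_⟩
  · intro β hβ
    by_cases hl : Order.IsSuccLimit β
    · simpa [hl] using (hC β hβ hl).1
    · simp only [hl, if_false]
      intro b hb
      have hb' : Order.succ b = β := hb
      rw [← hb']
      exact Order.lt_succ b
  · intro β hβ a ha
    by_cases hl : Order.IsSuccLimit β
    · obtain ⟨b, hb, hab⟩ := (hC β hβ hl).2.1 a ha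
      exact ⟨b, by simpa [hl] using hb, hab.le⟩
    · rcases Ordinal.zero_or_succ_or_isSuccLimit β with rfl | ⟨c, rfl⟩ | hl'
      · exact absurd ha (not_lt.2 zero_le)
      · refine ⟨c, ?_, Order.lt_succ_iff.1 ha⟩
        simp only [hl, if_false]
        rfl
      · exact absurd hl' hl
  · intro β hβ δ hδ hacc
    by_cases hl : Order.IsSuccLimit β
    · simp only [hl, if_true] at hacc ⊢
      exact (hC β hβ hl).2.2.1 δ hδ hacc
    · simp only [hl, if_false] at hacc
      exact (sqw_no_acc hδ hacc).elim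
  · intro β hβ δ hδ hacc
    by_cases hl : Order.IsSuccLimit β
    · simp only [hl, if_true] at hacc ⊢
      simp only [sqw_acc_limit hacc, if_true]
      exact (hC β hβ hl).2.2.2.2 δ hδ hacc
    · simp only [hl, if_false] at hacc
      exact (sqw_no_acc hδ hacc).elim
  · intro β hβ a ha
    have hpos : (0 : Ordinal.{0}) < lam.ord := by
      rw [Cardinal.lt_ord, Ordinal.card_zero]
      exact lt_of_lt_of_le Cardinal.aleph0_pos hlam
    by_cases hl : Order.IsSuccLimit β
    · simp only [hl, if_true]
      obtain ⟨b, hb, hab⟩ := (hC β hβ hl).2.1 a ha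
      obtain ⟨e, he, he'⟩ := sqw_e (C β) (hC β hβ hl).2.2.2.1
      exact lt_of_le_of_lt ((rk_mono (C β) hab.le).trans (rk_le_of_strictMonoOn he hb)) (he' b hb)
    · simp only [hl, if_false]
      have h1 : rk {b | Order.succ b = β} a = rk ∅ a := by
        apply rk_congr
        intro ξ hξ
        constructor
        · intro h2
          have h3 : Order.succ ξ = β := h2
          have h4 := Order.succ_le_of_lt hξ
          rw [h3] at h4
          exact absurd ha (not_lt.2 h4)
        · intro h2; exact absurd h2 (Set.notMem_empty ξ)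
      rw [h1, sqw_rk_empty]
      exact hpos

end Pool.H58.AE
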