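import Pool.Agent.H58.AE.Defs

set_option autoImplicit false

/-!
MODULE TRI.  From a colouring of triples of ordinals to a colouring of `Finset α`.

Let `e : α → Ordinal` be injective with range `Iio Θc.ord` (from `#α = Θc`: an equivalence of `α`
with `Θc.ord.ToType` and `Ordinal.typein`/`Ordinal.ToType.mk`; or from `Cardinal.mk_Iio_ordinal`).
For `s : Finset α` put `f s = c (e x) (e y) (e z)` if `s = {x, y, z}` with `e x < e y < e z` (such
`x, y, z` are unique, choose them classically), and `none` if there are no such `x, y, z`.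
* If `#H = κ`: `X = e '' H` has `#X = lift κ` (`Cardinal.mk_image_eq_of_injOn_lift`), so it is not
  `Hom0 c`, which gives `x < y < z` in `X` with `c x y z ≠ none`, hence `s`.
* If `s.card = 4`, write `s = {w, x, y, z}` with `e w < e x < e y < e z`; the four triples do not all
  have colour `some i` by `Free4 c`.
-/

namespace Pool.H58.AE

open Cardinal Ordinal Set

theorem TRI_emb {Θc : Cardinal.{0}} {α : Type} (hα : Cardinal.mk α = Θc) :
    ∃ e : α → Ordinal.{0}, Function.Injective e ∧ ∀ x, e x < Θc.ord := by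
  have h1 : Cardinal.mk α = Cardinal.mk Θc.ord.ToType := by
    rw [Cardinal.mk_ord_toType]
    exact hα
  obtain ⟨g⟩ := Cardinal.eq.1 h1
  refine ⟨fun x => (Ordinal.ToType.toOrd (g x)).1, fun x y h => ?_, fun x => ?_⟩
  · exact g.injective (Ordinal.ToType.mk.symm.injective (Subtype.ext h))
  · exact (Ordinal.ToType.toOrd (g x)).2

theorem TRI_uniq {α : Type} [DecidableEq α] {e : α → Ordinal.{0}} {x y z x' y' z' : α}
    (h : ({x, y, z} : Finset α) = {x', y', z'}) (h1 : e x < e y) (h2 : e y < e z)
    (h3 : e x' < e y') (h4 : e y' < e z') : x = x' ∧ y = y' ∧ z = z' := by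
  have hx : x ∈ ({x', y', z'} : Finset α) := by rw [← h]; simp
  have hy : y ∈ ({x', y', z'} : Finset α) := by rw [← h]; simp
  have hz : z ∈ ({x', y', z'} : Finset α) := by rw [← h]; simp
  clear h
  simp only [Finset.mem_insert, Finset.mem_singleton] at hx hy hz
  have h5 := h3.trans h4
  have h6 := h1.trans h2
  rcases hx with rfl | rfl | rfl <;> rcases hy with rfl | rfl | rfl <;>
    rcases hz with rfl | rfl | rfl <;>
    first
      | exact ⟨rfl, rfl, rfl⟩
      | exact absurd h1 (lt_irrefl _)
      | exact absurd h2 (lt_irrefl _)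
      | exact absurd h6 (lt_irrefl _)
      | exact absurd (h1.trans h3) (lt_irrefl _)
      | exact absurd (h1.trans h4) (lt_irrefl _)
      | exact absurd (h1.trans h5) (lt_irrefl _)
      | exact absurd (h2.trans h3) (lt_irrefl _)
      | exact absurd (h2.trans h4) (lt_irrefl _)
      | exact absurd (h2.trans h5) (lt_irrefl _)

theorem kills_finset {ι : Type} {κ Θc : Cardinal.{0}} (h : Kills ι Θc.ord κ) {α : Type}
    (hα : Cardinal.mk α = Θc) :
    ∃ f : Finset α → Option ι,
      (∀ H : Set α, Cardinal.mk H = κ →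
        ∃ s : Finset α, (↑s : Set α) ⊆ H ∧ s.card = 3 ∧ f s ≠ none) ∧
      (∀ i : ι, ∀ s : Finset α, s.card = 4 →
        ∃ t : Finset α, t ⊆ s ∧ t.card = 3 ∧ f t ≠ some i) := by
  classical
  obtain ⟨c, hc, hX⟩ := h
  obtain ⟨e, he, heΘ⟩ := TRI_emb hα
  let T : Finset α → α × α × α → Prop := fun s t =>
    s = {t.1, t.2.1, t.2.2} ∧ e t.1 < e t.2.1 ∧ e t.2.1 < e t.2.2
  let f : Finset α → Option ι := fun s =>
    if h : ∃ t, T s t then c (e h.choose.1) (e h.choose.2.1) (e h.choose.2.2) else none
  have hf : ∀ x y z : α, e x < e y → e y < e z → f {x, y, z} = c (e x) (e y) (e z) := by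
    intro x y z h1 h2
    have h3 : ∃ t, T {x, y, z} t := ⟨(x, y, z), rfl, h1, h2⟩
    have h4 : f {x, y, z} = c (e h3.choose.1) (e h3.choose.2.1) (e h3.choose.2.2) := dif_pos h3
    obtain ⟨h5, h6, h7⟩ := h3.choose_spec
    obtain ⟨h8, h9, h10⟩ := TRI_uniq h5 h1 h2 h6 h7
    rw [h4, ← h8, ← h9, ← h10]
  have hcard : ∀ x y z : α, e x < e y → e y < e z → ({x, y, z} : Finset α).card = 3 := by
    intro x y z h1 h2
    refine Finset.card_eq_three.2 ⟨x, y, z, ?_, ?_, ?_, rfl⟩
    · rintro rfl
      exact lt_irrefl _ h1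
    · rintro rfl
      exact lt_irrefl _ (h1.trans h2)
    · rintro rfl
      exact lt_irrefl _ h2
  refine ⟨f, ?_, ?_⟩
  · intro H hH
    by_contra hcon
    push Not at hcon
    have h1 : Hom0 c (e '' H) := by
      rintro _ ⟨x, hx, rfl⟩ _ ⟨y, hy, rfl⟩ _ ⟨z, hz, rfl⟩ hxy hyz
      rw [← hf x y z hxy hyz]
      refine hcon {x, y, z} ?_ (hcard x y z hxy hyz)
      intro w hw
      simp only [Finset.coe_insert, Finset.coe_singleton, Set.mem_insert_iff,
        Set.mem_singleton_iff] at hw
      rcases hw with rfl | rfl | rfl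
      · exact hx
      · exact hy
      · exact hz
    have h2 := hX (e '' H) (by rintro _ ⟨x, _, rfl⟩; exact heΘ x) h1
    have h3 := Cardinal.mk_image_eq_lift e H he
    rw [Cardinal.lift_id'] at h3
    rw [h3, hH] at h2
    exact lt_irrefl _ h2
  · intro i s hs
    by_contra hcon
    push Not at hcon
    have hs' : (s.image e).card = 4 := by
      rw [Finset.card_image_of_injective s he]
      exact hs
    have hE : ∀ j : Fin 4, ∃ a ∈ s, e a = (s.image e).orderEmbOfFin hs' j := fun j =>
      Finset.mem_image.1 (Finset.orderEmbOfFin_mem (s.image e) hs' j)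
    choose a ha hae using hE
    have hlt : ∀ j k : Fin 4, j < k → e (a j) < e (a k) := by
      intro j k hjk
      rw [hae, hae]
      exact ((s.image e).orderEmbOfFin hs').lt_iff_lt.2 hjk
    have hsome : ∀ j k l : Fin 4, j < k → k < l →
        c (e (a j)) (e (a k)) (e (a l)) = some i := by
      intro j k l hjk hkl
      rw [← hf _ _ _ (hlt j k hjk) (hlt k l hkl)]
      refine hcon _ ?_ (hcard _ _ _ (hlt j k hjk) (hlt k l hkl))
      intro w hw
      simp only [Finset.mem_insert, Finset.mem_singleton] at hw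
      rcases hw with rfl | rfl | rfl
      · exact ha j
      · exact ha k
      · exact ha l
    exact hc (e (a 0)) (e (a 1)) (e (a 2)) (e (a 3)) i (hlt 0 1 (by decide))
      (hlt 1 2 (by decide)) (hlt 2 3 (by decide))
      ⟨hsome 0 1 2 (by decide) (by decide), hsome 0 1 3 (by decide) (by decide),
        hsome 0 2 3 (by decide) (by decide), hsome 1 2 3 (by decide) (by decide)⟩

end Pool.H58.AE
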