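import Pool.Agent.H58.AE.CTW
import Pool.Agent.H58.AE.NOR
import Pool.Agent.H58.AE.SQW
import Pool.Agent.H58.AE.FAM
import Pool.Agent.H58.AE.COR
import Pool.Agent.H58.AE.CAS
import Pool.Agent.H58.AE.ARI
import Pool.Agent.H58.AE.TRI
import Pool.Agent.H58.AE.PAI
import Pool.Agent.H58.AE.INF

set_option autoImplicit false

/-!
MODULE FIN.  Assembly.
-/

namespace Pool.H58.AE

open Cardinal Ordinal Set

theorem kills_main {ι : Type} [Infinite ι] {κ : Cardinal.{0}} (hκ : ℵ₀ ≤ κ)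
    (hsing : κ.ord.cof < κ)
    (h : (2 : Cardinal.{0}) ^ κ = Order.succ ((2 : Cardinal.{0}) ^< κ))
    (hsq : Square ((2 : Cardinal.{0}) ^< κ))
    (hρ : (2 : Cardinal.{0}) ^ (Cardinal.mk ι) < κ.ord.cof)
    (G : Ordinal.{0} → Ordinal.{0} → Option ι) (hG : PairCol κ.ord.cof.ord G) :
    Kills ι ((2 : Cardinal.{0}) ^ κ).ord κ := by
  classical
  obtain ⟨Λ, hΛ⟩ : ∃ Λ : Cardinal.{0}, Λ = (2 : Cardinal.{0}) ^< κ := ⟨_, rfl⟩
  rw [← hΛ] at h hsq
  have hκΛ : κ ≤ Λ := by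
    by_contra hlt
    rw [not_le] at hlt
    have h1 : (2 : Cardinal.{0}) ^ Λ ≤ Λ := by
      conv_rhs => rw [hΛ]
      exact Cardinal.le_powerlt 2 hlt
    exact absurd (Cardinal.cantor Λ) (not_lt.mpr h1)
  have hcof : ℵ₀ < κ.ord.cof :=
    lt_of_le_of_lt (Cardinal.aleph0_le_mk ι) (lt_trans (Cardinal.cantor _) hρ)
  have hlimm : Order.IsSuccLimit κ.ord.cof.ord := Cardinal.isSuccLimit_ord hcof.le
  have har := arith1 κ hκ hsing (by rw [h, hΛ])
  have hφ : ∀ τ, ∃ σ, τ < κ → (σ < κ ∧ (2 : Cardinal.{0}) ^ τ < 2 ^ σ) := by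
    intro τ
    by_cases hτ : τ < κ
    · by_contra hno
      push Not at hno
      have h1 := har τ hτ
      have h2 : (2 : Cardinal.{0}) ^< κ ≤ 2 ^ τ := by
        rw [Cardinal.powerlt_le]
        intro x hx
        by_contra h3
        rw [not_le] at h3
        obtain ⟨-, h4⟩ := hno x
        exact absurd h3 (not_lt.mpr (h4 hx))
      exact absurd h1 (not_lt.mpr h2)
    · exact ⟨0, fun h => absurd h hτ⟩
  choose φ hφ using hφ
  obtain ⟨s, hs0, hs1, hs2⟩ := exists_seq κ hκ hsing φ (fun τ hτ => (hφ τ hτ).1)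
  have hs3 : ∀ i < κ.ord.cof.ord, ∀ j < κ.ord.cof.ord, i < j →
      s i < s j ∧ (2 : Cardinal.{0}) ^ s i < (2 : Cardinal.{0}) ^ s j := by
    intro i hi j hj hij
    obtain ⟨h1, h2⟩ := hs1 i hi j hj hij
    refine ⟨h1, lt_of_lt_of_le (hφ (s i) (hs0 i hi).2).2 ?_⟩
    exact Cardinal.power_le_power_left two_ne_zero h2
  -- index function
  obtain ⟨hh, hhdef⟩ : ∃ hh : Ordinal.{0} → Ordinal.{0},
      ∀ ξ, hh ξ = sInf {i | ξ < ((2 : Cardinal.{0}) ^ s i).ord} := ⟨_, fun _ => rfl⟩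
  have hne : ∀ ξ < Λ.ord, ∃ i < κ.ord.cof.ord, ξ < ((2 : Cardinal.{0}) ^ s i).ord := by
    intro ξ hξ
    rw [Cardinal.lt_ord, hΛ] at hξ
    have : ∃ τ < κ, ξ.card < (2 : Cardinal.{0}) ^ τ := by
      by_contra hno
      push Not at hno
      exact absurd hξ (not_lt.mpr (Cardinal.powerlt_le.mpr hno))
    obtain ⟨τ, hτ, h1⟩ := this
    obtain ⟨i, hi, h2⟩ := hs2 τ hτ
    exact ⟨i, hi, Cardinal.lt_ord.mpr
      (lt_of_lt_of_le h1 (Cardinal.power_le_power_left two_ne_zero h2.le))⟩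
  have hmem : ∀ ξ < Λ.ord, ξ < ((2 : Cardinal.{0}) ^ s (hh ξ)).ord := by
    intro ξ hξ
    obtain ⟨i, -, hi⟩ := hne ξ hξ
    rw [hhdef]
    exact csInf_mem (s := {i | ξ < ((2 : Cardinal.{0}) ^ s i).ord}) ⟨i, hi⟩
  have hhm : ∀ ξ < Λ.ord, hh ξ < κ.ord.cof.ord := by
    intro ξ hξ
    obtain ⟨i, hi, h1⟩ := hne ξ hξ
    refine lt_of_le_of_lt ?_ hi
    rw [hhdef]
    exact csInf_le' h1
  have hmono : ∀ ξ < Λ.ord, ∀ η < Λ.ord, ξ ≤ η → hh ξ ≤ hh η := by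
    intro ξ hξ η hη hle
    rw [hhdef ξ]
    exact csInf_le' (lt_of_le_of_lt hle (hmem η hη))
  have hhi : ∀ i < κ.ord.cof.ord, ∀ ξ < Λ.ord, hh ξ ≤ i → ξ < ((2 : Cardinal.{0}) ^ s i).ord := by
    intro i hi ξ hξ hle
    refine lt_of_lt_of_le (hmem ξ hξ) (Cardinal.ord_le_ord.mpr ?_)
    rcases hle.lt_or_eq with h1 | h1
    · exact (hs3 _ (hhm ξ hξ) i hi h1).2.le
    · rw [h1]
  have hΛ0 : ℵ₀ ≤ Λ := hκ.trans hκΛ
  obtain ⟨C, hW⟩ := walk_of_square hΛ0 hsq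
  obtain ⟨Θ, hΘ⟩ : ∃ Θ : Ordinal.{0}, Θ = (Order.succ Λ).ord := ⟨_, rfl⟩
  rw [← hΘ] at hW
  have hm0 : 0 < κ.ord.cof.ord := by
    have : (0 : Cardinal) < κ.ord.cof := lt_trans Cardinal.aleph0_pos hcof
    rwa [Cardinal.lt_ord, Ordinal.card_zero]
  obtain ⟨P, hPdef⟩ : ∃ P, P = pw C hh := ⟨_, rfl⟩
  have hPlt : ∀ β < Θ, ∀ α, P β α < κ.ord.cof.ord := by
    rw [hPdef]; exact pw_lt hW hh hm0 hhm
  have hN : ∀ β < Θ, ∀ i < κ.ord.cof.ord,
      Cardinal.mk {α : Ordinal.{0} | α < β ∧ P β α ≤ i} ≤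
      Cardinal.lift.{1} ((2 : Cardinal.{0}) ^ s i) := by
    intro β hβ i hi
    rw [hPdef]
    refine norm_pw hW hh _ ?_ i (hhi i hi) β hβ
    exact (hs0 i hi).1.trans (Cardinal.cantor _).le
  obtain ⟨F, hF⟩ := exists_F κ.ord.cof.ord Θ s P hlimm (fun i hi => (hs0 i hi).1) hs3 hN
    (fun β hβ α _ => hPlt β hβ α)
  have hsub := sub_both hW hh hmono
  have hc2 := ctwo hW hh hmono hm0 hhm
  have hΘcof : κ < Θ.cof := by
    rw [hΘ, (Cardinal.isRegular_succ hΛ0).cof_ord]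
    exact lt_of_le_of_lt hκΛ (Order.lt_succ Λ)
  -- the combined colouring
  have hι : Nonempty ι := inferInstance
  obtain ⟨i₀⟩ := hι
  obtain ⟨c3, hc3free, hc3⟩ := relabel (ι := ι) (fun _ : Unit => i₀)
    (fun _ _ _ => rfl) (pat F) (pat_free F)
  obtain ⟨d, hd, hd0⟩ := combine (ι := ι) (K := Fin 3)
    (by
      rw [Cardinal.mk_fin]
      exact (Cardinal.natCast_lt_aleph0).le.trans (Cardinal.aleph0_le_mk ι))
    (fun k => if k = 0 then star1 G P else if k = 1 then star2 G P else c3)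
    (by
      intro k
      fin_cases k
      · simpa using star1_free hG P
      · simpa using star2_free hG P
      · simpa using hc3free)
  refine ⟨d, hd, fun X hX hX0 => ?_⟩
  have hk := hd0 X hX0
  have hk0 : Hom0 (star1 G P) X := by simpa using hk 0
  have hk1 : Hom0 (star2 G P) X := by simpa using hk 1
  have hk2 : Hom0 (pat F) X := hc3 X (by simpa using hk 2)
  have hΘeq : ((2 : Cardinal.{0}) ^ κ).ord = Θ := by rw [h, hΘ]
  rw [hΘeq] at hX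
  refine core hκ hcof hΘcof G hG P (fun z hz x _ => hPlt z hz x) ?_ ?_
    (fun i => s (Order.succ i)) ?_ ?_ F hF X hX hk0 hk1 hk2
  · intro β hβ δ hδ hlim
    rw [hPdef]
    exact hc2 β hβ δ hδ hlim
  · intro z hz y hy x hx
    rw [hPdef]
    exact (hsub z hz x y hx.le hy.le).2
  · intro i hi
    exact hs0 _ (hlimm.succ_lt hi)
  · intro i hi j hj hij
    rcases hij.lt_or_eq with h1 | h1
    · exact (hs3 _ (hlimm.succ_lt hi) _ (hlimm.succ_lt hj) (Order.succ_lt_succ h1)).1.le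
    · rw [h1]

theorem main :
    ∀ (κ ρ : Cardinal.{0}), Cardinal.aleph0 ≤ κ → Ordinal.cof (Cardinal.ord κ) < κ →
    ((2 : Cardinal.{0}) ^ κ = (2 : Cardinal.{0}) ^< κ ∨
      ((2 : Cardinal.{0}) ^ κ = Order.succ ((2 : Cardinal.{0}) ^< κ) ∧
        Square ((2 : Cardinal.{0}) ^< κ))) →
    ∀ (α β ι : Type),
      Cardinal.mk α = (2 : Cardinal.{0}) ^ κ →
      Cardinal.mk β = Ordinal.cof (Cardinal.ord κ) →
      Cardinal.mk ι = ρ →
      (∃ g : Finset β → Option ι,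
        (∀ H : Set β, Cardinal.mk H = Ordinal.cof (Cardinal.ord κ) →
          ∃ s : Finset β, (↑s : Set β) ⊆ H ∧ s.card = 2 ∧ g s ≠ none) ∧
        (∀ i : ι, ∀ s : Finset β, s.card = 3 →
          ∃ t : Finset β, t ⊆ s ∧ t.card = 2 ∧ g t ≠ some i)) →
      (∃ f : Finset α → Option ι,
        (∀ H : Set α, Cardinal.mk H = κ →
          ∃ s : Finset α, (↑s : Set α) ⊆ H ∧ s.card = 3 ∧ f s ≠ none) ∧
        (∀ i : ι, ∀ s : Finset α, s.card = 4 →
          ∃ t : Finset α, t ⊆ s ∧ t.card = 3 ∧ f t ≠ some i)) := by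
  intro κ ρ hκ hsing hcase α β ι hα hβ hι hg
  obtain ⟨g, hg1, hg2⟩ := hg
  have hreg : (Ordinal.cof (Cardinal.ord κ)).IsRegular :=
    Cardinal.isRegular_cof (Cardinal.isSuccLimit_ord hκ)
  obtain ⟨G, hG⟩ := exists_pairCol hreg hβ g hg1 hg2
  haveI : Infinite ι := infinite_of_pairCol hreg hG
  have hkill : Kills ι ((2 : Cardinal.{0}) ^ κ).ord κ := by
    by_cases hsmall : κ.ord.cof ≤ (2 : Cardinal.{0}) ^ (Cardinal.mk ι)
    · exact kills_small hκ hsing hsmall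
    · rcases hcase with h | ⟨h, hsq⟩
      · obtain ⟨τ, hτκ, hτ, h2⟩ := attained κ hκ hsing h
        exact kills_att hτ hτκ h2
      · exact kills_main hκ hsing h hsq (not_le.mp hsmall) G hG
  exact kills_finset hkill hα

end Pool.H58.AE
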