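import Pool.Agent.H58.AE.Defs

set_option autoImplicit false

/-!
MODULE LEX.  No lexicographically monotone sequences of length `θ⁺` in `2 ^ τ`, `|τ| ≤ θ`.

`lex_up`: induction on `τ` (all `A`, `F`).  Assume `#A > lift θ`.  For `a ∈ A` which is not the
maximum of `A` let `a⁺` be the least element of `A` above `a`, and let `d a < τ` be the first
difference: `F a`, `F a⁺` agree below `d a`, `F a (d a) = false`, `F a⁺ (d a) = true`.
Remove the possible maximum of `A` (one point) to get `A'`; `#A' > lift θ`.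
The fibres of `d : A' → τ`: if all had at most `lift θ` elements, then `#A' ≤ lift θ` (there are
at most `τ.card ≤ θ` fibres).  So there is `δ < τ` such that `A'' = {a ∈ A' | d a = δ}` has more than
`lift θ` elements.  For `a < b` in `A''` the first difference of `F a`, `F b` is `< δ`:
otherwise `F a`, `F b` agree below `δ`; `a⁺ ≤ b`, `F a⁺` agrees with `F a` and `F b` below `δ`,
`F a⁺ δ = true`, `F b δ = false`; so `a⁺ ≠ b`, `a⁺ < b`, and the hypothesis gives `i` with `F a⁺`,
`F b` equal below `i`, `F a⁺ i = false`, `F b i = true`; by comparison with `δ`: `i < δ`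
impossible (they agree below `δ`), `i = δ` impossible, `i > δ` impossible (they differ at `δ`).
So the hypothesis of the lemma holds for `A''` and `δ < τ`; contradiction to the induction hypothesis.

`lex_down`: apply `lex_up` to `fun a j => !(F a j)`.
-/

namespace Pool.H58.AE

open Cardinal Ordinal Set

theorem lex_up (θ : Cardinal.{0}) (hθ : ℵ₀ ≤ θ) : ∀ τ : Ordinal.{0}, τ.card ≤ θ →
    ∀ (A : Set Ordinal.{0}) (F : Ordinal.{0} → Ordinal.{0} → Bool),
      (∀ a ∈ A, ∀ b ∈ A, a < b →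
        ∃ i < τ, (∀ j < i, F a j = F b j) ∧ F a i = false ∧ F b i = true) →
      Cardinal.mk A ≤ Cardinal.lift.{1} θ := by
  intro τ
  induction τ using WellFoundedLT.induction with
  | ind τ ih =>
    intro hτ A F hA
    have hθ1 : ℵ₀ ≤ Cardinal.lift.{1} θ := by
      rwa [Cardinal.aleph0_le_lift]
    -- the elements which are not the maximum
    set A' : Set Ordinal.{0} := {a | a ∈ A ∧ ∃ b ∈ A, a < b} with hA'
    have hsucc : ∀ a ∈ A', ∃ p ∈ A, a < p ∧ ∀ b ∈ A, a < b → p ≤ b := by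
      rintro a ⟨ha, b, hb, hab⟩
      have hne : {b | b ∈ A ∧ a < b}.Nonempty := ⟨b, hb, hab⟩
      refine ⟨sInf {b | b ∈ A ∧ a < b}, (csInf_mem hne).1, (csInf_mem hne).2, fun c hc hac => ?_⟩
      exact csInf_le' ⟨hc, hac⟩
    have hd : ∀ a ∈ A', ∃ i < τ, ∃ p ∈ A, a < p ∧ (∀ b ∈ A, a < b → p ≤ b) ∧
        (∀ j < i, F a j = F p j) ∧ F a i = false ∧ F p i = true := by
      intro a ha
      obtain ⟨p, hp, hap, hmin⟩ := hsucc a ha
      obtain ⟨i, hi, h1, h2, h3⟩ := hA a ha.1 p hp hap
      exact ⟨i, hi, p, hp, hap, hmin, h1, h2, h3⟩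
    set B : Set.Iio τ → Set Ordinal.{0} := fun δ => {a | a ∈ A' ∧ ∃ p ∈ A, a < p ∧
        (∀ b ∈ A, a < b → p ≤ b) ∧ (∀ j < δ.1, F a j = F p j) ∧ F a δ.1 = false ∧ F p δ.1 = true}
      with hB
    have hcov : A' ⊆ ⋃ δ, B δ := by
      intro a ha
      obtain ⟨i, hi, p, hp, h⟩ := hd a ha
      rw [Set.mem_iUnion]
      exact ⟨⟨i, hi⟩, ha, p, hp, h⟩
    have hBle : ∀ δ, Cardinal.mk (B δ) ≤ Cardinal.lift.{1} θ := by
      intro δ
      refine ih δ.1 δ.2 ((Ordinal.card_le_card (le_of_lt δ.2)).trans hτ) (B δ) F ?_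
      intro a ha b hb hab
      obtain ⟨i, hi, h1, h2, h3⟩ := hA a ha.1.1 b hb.1.1 hab
      by_cases hlt : i < δ.1
      · exact ⟨i, hlt, h1, h2, h3⟩
      · exfalso
        push Not at hlt
        obtain ⟨haA', p, hp, hap, hmin, g1, g2, g3⟩ := ha
        obtain ⟨hbA', q, hq, hbq, hminb, k1, k2, k3⟩ := hb
        -- `F b δ = false`
        have hpb : p ≤ b := hmin b hbA'.1 hab
        have hne : p ≠ b := by
          intro h
          rw [h, k2] at g3
          exact Bool.noConfusion g3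
        have hpb' : p < b := lt_of_le_of_ne hpb hne
        obtain ⟨l, hl, m1, m2, m3⟩ := hA p hp b hbA'.1 hpb'
        rcases lt_trichotomy l δ.1 with h | h | h
        · have e1 : F a l = F p l := g1 l h
          have e2 : F a l = F b l := h1 l (lt_of_lt_of_le h hlt)
          rw [← e1, e2, m3] at m2
          exact Bool.noConfusion m2
        · rw [h, g3] at m2
          exact Bool.noConfusion m2
        · have e1 := m1 δ.1 h
          rw [g3, k2] at e1
          exact Bool.noConfusion e1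
    have hA'le : Cardinal.mk A' ≤ Cardinal.lift.{1} θ := by
      refine (Cardinal.mk_le_mk_of_subset hcov).trans ?_
      refine (Cardinal.mk_iUnion_le _).trans ?_
      have h1 : Cardinal.mk (Set.Iio τ) ≤ Cardinal.lift.{1} θ := by
        rw [Cardinal.mk_Iio_ordinal]
        exact Cardinal.lift_le.2 hτ
      have h2 : (⨆ δ, Cardinal.mk (B δ)) ≤ Cardinal.lift.{1} θ := ciSup_le' hBle
      calc Cardinal.mk (Set.Iio τ) * ⨆ δ, Cardinal.mk (B δ)
          ≤ Cardinal.lift.{1} θ * Cardinal.lift.{1} θ := mul_le_mul' h1 h2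
        _ = Cardinal.lift.{1} θ := Cardinal.mul_eq_self hθ1
    -- one more point
    have hsub : A ⊆ A' ∪ (A \ A') := by
      intro a ha
      by_cases h : a ∈ A'
      · exact Or.inl h
      · exact Or.inr ⟨ha, h⟩
    have hss : (A \ A').Subsingleton := by
      rintro a ⟨ha, ha'⟩ b ⟨hb, hb'⟩
      rcases lt_trichotomy a b with h | h | h
      · exact absurd ⟨ha, b, hb, h⟩ ha'
      · exact h
      · exact absurd ⟨hb, a, ha, h⟩ hb'
    have h1 : Cardinal.mk (A \ A' : Set Ordinal.{0}) ≤ 1 := by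
      rw [Cardinal.le_one_iff_subsingleton]
      exact Set.subsingleton_coe _ |>.2 hss
    refine (Cardinal.mk_le_mk_of_subset hsub).trans ((Cardinal.mk_union_le _ _).trans ?_)
    calc Cardinal.mk A' + Cardinal.mk (A \ A' : Set Ordinal.{0})
        ≤ Cardinal.lift.{1} θ + Cardinal.lift.{1} θ :=
          add_le_add hA'le (h1.trans (Cardinal.one_le_aleph0.trans hθ1))
      _ = Cardinal.lift.{1} θ := Cardinal.add_eq_self hθ1

theorem lex_down (θ : Cardinal.{0}) (hθ : ℵ₀ ≤ θ) : ∀ τ : Ordinal.{0}, τ.card ≤ θ →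
    ∀ (A : Set Ordinal.{0}) (F : Ordinal.{0} → Ordinal.{0} → Bool),
      (∀ a ∈ A, ∀ b ∈ A, a < b →
        ∃ i < τ, (∀ j < i, F a j = F b j) ∧ F a i = true ∧ F b i = false) →
      Cardinal.mk A ≤ Cardinal.lift.{1} θ := by
  intro τ hτ A F h
  refine lex_up θ hθ τ hτ A (fun a j => !(F a j)) fun a ha b hb hab => ?_
  obtain ⟨i, hi, h1, h2, h3⟩ := h a ha b hb hab
  exact ⟨i, hi, fun j hj => by simp only [h1 j hj], by simp only [h2, Bool.not_true],
    by simp only [h3, Bool.not_false]⟩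

end Pool.H58.AE
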