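import Pool.Agent.H58.AE.RK

set_option autoImplicit false

/-!
MODULE PWA.  Basic facts on the walk function `pw C hh β α` (= `ρ(α, β)`).
`hW : Walk C Θ lam`.

* `nx_mem`: `nx (C β) α` is the `sInf` of the nonempty set `{b ∈ C β | α ≤ b}` (`hW.unb`,
  `csInf_mem`), and `C β ⊆ Iio β` (`hW.sub`).
* `nx_le`: `csInf_le'`.
* `EE_finite`: if `EE (C β) α` is infinite, it has a strictly increasing sequence `ξ₀ < ξ₁ < …`
  (an infinite set of ordinals contains one: e.g. `Set.Infinite.natEmbedding` and well-foundedness,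
  or take iterated minima of the infinite set minus finitely many points); let `η` be its
  supremum; `η ≤ α`, and `Acc (C β) η`; but `ξ₀ ∈ EE` forbids an accumulation point `η` with
  `ξ₀ < η ≤ α`.
* `pw_of_le`: the `if` is false.
* `pw_le_iff`: unfold (`rw [pw]`), the `if` is true by `nx_mem`; `max_le_iff`, and the supremum over
  `Iio α` is `≤ b` iff all its terms are (`Ordinal.iSup_le_iff`).
* `pw_lt`: strong induction on `β`.  The supremum is over finitely many nonzero terms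
  (`EE_finite`), so it is `0` or attained (or: the set of terms is finite and nonempty, so its
  sup is one of them), hence `< m`.
* `pw_coh`: for `δ ∈ Acc (C β)`, `α < δ`: by `hW.coh`, `C δ = C β ∩ Iio δ`; hence
  `nx (C δ) α = nx (C β) α` (there is an element of `C β` in `[α, δ)` because `Acc (C β) δ`),
  `rk (C δ) α = rk (C β) α` (`rk_congr`), `EE (C δ) α = EE (C β) α` (an accumulation point
  `η ≤ α < δ` of `C δ` is the same as one of `C β`).  Conclude with antisymmetry and `pw_le_iff`.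
-/

namespace Pool.H58.AE

open Cardinal Ordinal Set

theorem nx_mem {C : Ordinal.{0} → Set Ordinal.{0}} {Θ lam : Ordinal.{0}} (hW : Walk C Θ lam)
    {β : Ordinal.{0}} (hβ : β < Θ) {α : Ordinal.{0}} (h : α < β) :
    nx (C β) α ∈ C β ∧ α ≤ nx (C β) α ∧ nx (C β) α < β := by
  obtain ⟨b, hb1, hb2⟩ := hW.unb β hβ α h
  have hne : ({b | b ∈ C β ∧ α ≤ b} : Set Ordinal.{0}).Nonempty := ⟨b, hb1, hb2⟩
  have hm := csInf_mem hne
  exact ⟨hm.1, hm.2, hW.sub β hβ hm.1⟩

theorem nx_le {C : Set Ordinal.{0}} {α b : Ordinal.{0}} (hb : b ∈ C) (h : α ≤ b) :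
    nx C α ≤ b := by
  exact csInf_le' ⟨hb, h⟩

theorem EE_finite {C : Ordinal.{0} → Set Ordinal.{0}} {Θ lam : Ordinal.{0}} (hW : Walk C Θ lam)
    {β : Ordinal.{0}} (hβ : β < Θ) {α : Ordinal.{0}} (h : α < β) :
    (EE (C β) α).Finite := by
  by_contra hinf
  have hsub : EE (C β) α ∩ Set.Iio α = EE (C β) α := by
    apply Set.inter_eq_left.2
    intro ξ hξ
    exact hξ.2.1
  have hne : ({η | ¬ (EE (C β) α ∩ Set.Iio η).Finite} : Set Ordinal.{0}).Nonempty :=
    ⟨α, by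
      rw [Set.mem_setOf_eq, hsub]
      exact hinf⟩
  set η := sInf ({η | ¬ (EE (C β) α ∩ Set.Iio η).Finite} : Set Ordinal.{0}) with hη
  have hηm : ¬ (EE (C β) α ∩ Set.Iio η).Finite := csInf_mem hne
  have hηα : η ≤ α := csInf_le' (by
    rw [Set.mem_setOf_eq, hsub]
    exact hinf)
  have hfin : ∀ a < η, (EE (C β) α ∩ Set.Iio a).Finite := by
    intro a ha
    by_contra hna
    have : η ≤ a := csInf_le' hna
    exact absurd ha (not_lt.2 this)
  have hex : ∀ a < η, ∃ b ∈ EE (C β) α, a < b ∧ b < η := by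
    intro a ha
    by_contra hcon
    push Not at hcon
    apply hηm
    apply Set.Finite.subset ((hfin a ha).union (Set.finite_singleton a))
    intro ξ hξ
    by_cases hξa : ξ < a
    · exact Or.inl ⟨hξ.1, hξa⟩
    · right
      rcases (not_lt.1 hξa).eq_or_lt with h1 | h1
      · exact h1.symm
      · exact absurd hξ.2 (not_lt.2 (hcon ξ hξ.1 h1))
  have hη0 : η ≠ 0 := by
    intro h0
    apply hηm
    rw [h0]
    apply Set.Finite.subset Set.finite_empty
    intro ξ hξ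
    have h2 : ξ < 0 := hξ.2
    exact absurd h2 (not_lt.2 zero_le)
  have hacc : Acc (C β) η := by
    refine ⟨hη0, fun a ha => ?_⟩
    obtain ⟨b, hb, hab, hbη⟩ := hex a ha
    exact ⟨b, hb.1, hab, hbη⟩
  obtain ⟨b, hb, _, hbη⟩ := hex 0 (pos_iff_ne_zero.2 hη0)
  exact hb.2.2 η hacc ⟨hbη, hηα⟩

theorem pw_of_le (C : Ordinal.{0} → Set Ordinal.{0}) (hh : Ordinal.{0} → Ordinal.{0})
    {β α : Ordinal.{0}} (h : β ≤ α) : pw C hh β α = 0 := by
  rw [pw, dif_neg]
  rintro ⟨h1, _⟩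
  exact absurd h1 (not_lt.2 h)

theorem pw_le_iff {C : Ordinal.{0} → Set Ordinal.{0}} {Θ lam : Ordinal.{0}} (hW : Walk C Θ lam)
    (hh : Ordinal.{0} → Ordinal.{0}) {β : Ordinal.{0}} (hβ : β < Θ) {α : Ordinal.{0}}
    (h : α < β) (b : Ordinal.{0}) :
    pw C hh β α ≤ b ↔ hh (rk (C β) α) ≤ b ∧ pw C hh (nx (C β) α) α ≤ b ∧
      ∀ ξ ∈ EE (C β) α, pw C hh α ξ ≤ b := by
  rw [pw, dif_pos ⟨h, (nx_mem hW hβ h).2.2⟩, max_le_iff, max_le_iff, Ordinal.iSup_le_iff]
  refine and_congr Iff.rfl (and_congr Iff.rfl ?_)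
  constructor
  · intro hall ξ hξ
    have := hall ⟨ξ, hξ.2.1⟩
    rwa [if_pos hξ] at this
  · intro hall ξ
    by_cases hξ : ξ.1 ∈ EE (C β) α
    · rw [if_pos hξ]
      exact hall ξ.1 hξ
    · rw [if_neg hξ]
      exact zero_le

theorem pw_lt {C : Ordinal.{0} → Set Ordinal.{0}} {Θ lam : Ordinal.{0}} (hW : Walk C Θ lam)
    (hh : Ordinal.{0} → Ordinal.{0}) {m : Ordinal.{0}} (hm : 0 < m)
    (hhm : ∀ ξ < lam, hh ξ < m) :
    ∀ β < Θ, ∀ α, pw C hh β α < m := by
  intro β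
  induction β using WellFoundedLT.induction with
  | ind β ih =>
  intro hβ α
  by_cases h : α < β
  · have hn := nx_mem hW hβ h
    have h1 : hh (rk (C β) α) < m := hhm _ (hW.rkl β hβ α h)
    have h2 : pw C hh (nx (C β) α) α < m := ih _ hn.2.2 (hn.2.2.trans hβ) α
    have hfin := EE_finite hW hβ h
    have h3 : hfin.toFinset.sup (fun ξ => pw C hh α ξ) < m := by
      rw [Finset.sup_lt_iff hm]
      intro ξ _
      exact ih α h (h.trans hβ) ξ
    refine lt_of_le_of_lt ?_ (max_lt h1 (max_lt h2 h3))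
    rw [pw_le_iff hW hh hβ h]
    refine ⟨le_max_left _ _, (le_max_left _ _).trans (le_max_right _ _), ?_⟩
    intro ξ hξ
    refine le_trans ?_ ((le_max_right _ _).trans (le_max_right _ _))
    exact Finset.le_sup (f := fun ξ => pw C hh α ξ) (hfin.mem_toFinset.2 hξ)
  · rw [pw_of_le C hh (not_lt.1 h)]
    exact hm

theorem pw_coh {C : Ordinal.{0} → Set Ordinal.{0}} {Θ lam : Ordinal.{0}} (hW : Walk C Θ lam)
    (hh : Ordinal.{0} → Ordinal.{0}) {β δ α : Ordinal.{0}} (hβ : β < Θ) (hδ : δ < β)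
    (hacc : Acc (C β) δ) (hα : α < δ) : pw C hh δ α = pw C hh β α := by
  have hC : C δ = C β ∩ Set.Iio δ := hW.coh β hβ δ hδ hacc
  have hδΘ : δ < Θ := hδ.trans hβ
  have hαβ : α < β := hα.trans hδ
  have hn := nx_mem hW hβ hαβ
  have hnδ := nx_mem hW hδΘ hα
  obtain ⟨c, hc1, hc2, hc3⟩ := hacc.2 α hα
  have hnx : nx (C δ) α = nx (C β) α := by
    apply le_antisymm
    · apply nx_le _ hn.2.1
      rw [hC]
      exact ⟨hn.1, lt_of_le_of_lt (nx_le hc1 hc2.le) hc3⟩
    · apply nx_le _ hnδ.2.1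
      have := hnδ.1
      rw [hC] at this ⊢
      exact this.1
  have hrk : rk (C δ) α = rk (C β) α := by
    apply rk_congr
    intro ξ hξ
    rw [hC]
    exact ⟨fun h => h.1, fun h => ⟨h, hξ.trans hα⟩⟩
  have hAcc : ∀ η ≤ α, (Acc (C δ) η ↔ Acc (C β) η) := by
    intro η hη
    constructor
    · rintro ⟨h0, h1⟩
      refine ⟨h0, fun a ha => ?_⟩
      obtain ⟨b, hb, hab, hbη⟩ := h1 a ha
      rw [hC] at hb
      exact ⟨b, hb.1, hab, hbη⟩
    · rintro ⟨h0, h1⟩
      refine ⟨h0, fun a ha => ?_⟩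
      obtain ⟨b, hb, hab, hbη⟩ := h1 a ha
      refine ⟨b, ?_, hab, hbη⟩
      rw [hC]
      exact ⟨hb, (hbη.trans_le hη).trans hα⟩
  have hEE : EE (C δ) α = EE (C β) α := by
    ext ξ
    constructor
    · rintro ⟨h1, h2, h3⟩
      refine ⟨?_, h2, ?_⟩
      · rw [hC] at h1
        exact h1.1
      · intro η hη hc
        exact h3 η ((hAcc η hc.2).2 hη) hc
    · rintro ⟨h1, h2, h3⟩
      refine ⟨?_, h2, ?_⟩
      · rw [hC]
        exact ⟨h1, h2.trans hα⟩
      · intro η hη hc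
        exact h3 η ((hAcc η hc.2).1 hη) hc
  apply le_antisymm
  · rw [pw_le_iff hW hh hδΘ hα, hnx, hrk, hEE]
    exact (pw_le_iff hW hh hβ hαβ _).1 le_rfl
  · rw [pw_le_iff hW hh hβ hαβ, ← hnx, ← hrk, ← hEE]
    exact (pw_le_iff hW hh hδΘ hα _).1 le_rfl

end Pool.H58.AE
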