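import Pool.Agent.H58.AE.Defs

set_option autoImplicit false

/-!
MODULE RK.  Elementary facts on `rk C a` (order type of `C ∩ a`), defined by recursion in Defs
as the supremum over `ξ < a` of `succ (rk C ξ)` (if `ξ ∈ C`) and `0` (otherwise).
Use `Ordinal.le_iSup`, `Ordinal.iSup_le` (the index type `Set.Iio a` is small).

Proofs.
* `rk_eq` unfolds the definition (`rw [rk]`).
* `rk_lt`: `rk C ξ < succ (rk C ξ) ≤ rk C a`.
* `rk_mono`: the supremum over a larger index set.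
* `rk_congr`: by induction on `a` (only elements `< a` matter).
* `rk_gap`: both suprema have the same nonzero terms.
* `rk_le_of_strictMonoOn`: induction on `b`: for `ξ ∈ C`, `ξ < b`: `rk C ξ ≤ e ξ < e b`,
  hence `succ (rk C ξ) ≤ e b`.
* `rk_injOn`: from `rk_lt`.
-/

namespace Pool.H58.AE

open Cardinal Ordinal Set

open Classical in
theorem rk_eq (C : Set Ordinal.{0}) (a : Ordinal.{0}) :
    rk C a = ⨆ ξ : Set.Iio a, if ξ.1 ∈ C then Order.succ (rk C ξ.1) else 0 := by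
  rw [rk]

open Classical in
theorem rk_aux_le_iff {C : Set Ordinal.{0}} {a b : Ordinal.{0}} :
    rk C a ≤ b ↔ ∀ ξ ∈ C, ξ < a → Order.succ (rk C ξ) ≤ b := by
  rw [rk_eq, Ordinal.iSup_le_iff]
  constructor
  · intro h ξ hξ hξa
    have := h ⟨ξ, hξa⟩
    simpa [hξ] using this
  · rintro h ⟨ξ, hξa⟩
    by_cases hξ : ξ ∈ C
    · simpa [hξ] using h ξ hξ hξa
    · simp [hξ]

theorem rk_lt {C : Set Ordinal.{0}} {ξ a : Ordinal.{0}} (h1 : ξ ∈ C) (h2 : ξ < a) :
    rk C ξ < rk C a :=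
  lt_of_lt_of_le (Order.lt_succ _) (rk_aux_le_iff.1 le_rfl ξ h1 h2)

theorem rk_mono (C : Set Ordinal.{0}) : Monotone (rk C) := by
  intro a b hab
  rw [rk_aux_le_iff]
  intro ξ hξ hξa
  exact rk_aux_le_iff.1 le_rfl ξ hξ (hξa.trans_le hab)

theorem rk_congr {C D : Set Ordinal.{0}} {a : Ordinal.{0}} (h : ∀ ξ < a, (ξ ∈ C ↔ ξ ∈ D)) :
    rk C a = rk D a := by
  induction a using WellFoundedLT.induction with
  | ind a ih =>
    apply le_antisymm
    · rw [rk_aux_le_iff]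
      intro ξ hξ hξa
      rw [ih ξ hξa (fun η hη => h η (hη.trans hξa))]
      exact rk_aux_le_iff.1 le_rfl ξ ((h ξ hξa).1 hξ) hξa
    · rw [rk_aux_le_iff]
      intro ξ hξ hξa
      rw [← ih ξ hξa (fun η hη => h η (hη.trans hξa))]
      exact rk_aux_le_iff.1 le_rfl ξ ((h ξ hξa).2 hξ) hξa

theorem rk_gap {C : Set Ordinal.{0}} {a b : Ordinal.{0}} (hab : a ≤ b)
    (h : ∀ ξ ∈ C, ξ < b → ξ < a) : rk C a = rk C b := by
  apply le_antisymm (rk_mono C hab)
  rw [rk_aux_le_iff]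
  intro ξ hξ hξb
  exact rk_aux_le_iff.1 le_rfl ξ hξ (h ξ hξ hξb)

theorem rk_le_of_strictMonoOn {C : Set Ordinal.{0}} {e : Ordinal.{0} → Ordinal.{0}}
    (he : StrictMonoOn e C) {b : Ordinal.{0}} (hb : b ∈ C) : rk C b ≤ e b := by
  induction b using WellFoundedLT.induction with
  | ind b ih =>
    rw [rk_aux_le_iff]
    intro ξ hξ hξb
    exact Order.succ_le_of_lt ((ih ξ hξb hξ).trans_lt (he hξ hb hξb))

theorem rk_injOn (C : Set Ordinal.{0}) : Set.InjOn (rk C) C := by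
  intro a ha b hb hab
  rcases lt_trichotomy a b with h | h | h
  · exact absurd hab (rk_lt ha h).ne
  · exact h
  · exact absurd hab.symm (rk_lt hb h).ne

end Pool.H58.AE
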