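import Pool.Agent.H58.AE.Defs

set_option autoImplicit false

/-!
MODULE SEQ.  Cofinal sequence of cardinals in a singular cardinal.

`κ` is a limit cardinal (a singular cardinal is not a successor: `Cardinal.isRegular_succ`; so
`τ < κ → Order.succ τ < κ`).  Let `m = κ.ord.cof.ord` and let `c : Ordinal → Ordinal` be such that
`c i < κ.ord` for `i < m` and for every `τ < κ.ord` there is `i < m` with `τ ≤ c i` (a cofinal
function of length `cof`; e.g. `Ordinal.exists_ord_cof_eq...`, `exists_lsub_cof`, or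
`Order.exists_cof_eq` and a bijection of the cofinal set with `Iio m`).
Define `s i` by recursion on `i < m`:
`s i = max ℵ₀ (max (succ (c i).card) (succ (sup over j < i of (max (s j) (φ (s j))))))`.
As `i < m`, `#(Iio i) < cof κ.ord`, the supremum of fewer than `cof` cardinals `< κ` is `< κ`
(`Cardinal.iSup_lt_of_lt_cof_ord`, `sSup_lt_of_lt_cof_ord`), and `κ` is a limit cardinal `> ℵ₀`
(`ℵ₀` is regular), so `s i < κ`.
For the last item: `τ < κ`, `τ.ord < κ.ord`, take `i` with `τ.ord ≤ c i`: `τ ≤ (c i).card < s i`.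
(For `i ≥ m` the value `s i` is irrelevant, e.g. define the recursion with `if s j < κ then … else 0`,
or cut off by `if i < m`.)
-/

namespace Pool.H58.AE

open Cardinal Ordinal Set

theorem SEQ_limit {κ : Cardinal.{0}} (hκ : ℵ₀ ≤ κ) (hsing : κ.ord.cof < κ) :
    ∀ τ < κ, Order.succ τ < κ := by
  intro τ hτ
  rcases (Order.succ_le_of_lt hτ).lt_or_eq with h | h
  · exact h
  · exfalso
    rcases le_or_gt ℵ₀ τ with h0 | h0
    · have := (Cardinal.isRegular_succ h0).cof_ord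
      rw [h] at this
      rw [this] at hsing
      exact lt_irrefl _ hsing
    · have h1 : Order.succ τ < ℵ₀ := Cardinal.isSuccLimit_aleph0.succ_lt h0
      rw [h] at h1
      exact absurd h1 (not_lt.mpr hκ)

theorem SEQ_cofinal (κ : Cardinal.{0}) :
    ∃ c : Ordinal.{0} → Ordinal.{0}, (∀ i < κ.ord.cof.ord, c i < κ.ord) ∧
      ∀ τ < κ.ord, ∃ i < κ.ord.cof.ord, τ ≤ c i := by
  classical
  obtain ⟨S, hS, hcard⟩ := Order.exists_cof_eq κ.ord.ToType
  have h1 : #κ.ord.cof.ord.ToType = #S := by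
    rw [Cardinal.mk_toType, Cardinal.card_ord, hcard, Ordinal.cof_toType]
  obtain ⟨e⟩ := Cardinal.eq.mp h1
  refine ⟨fun i => if h : i < κ.ord.cof.ord then
    (Ordinal.ToType.toOrd (e (Ordinal.ToType.mk ⟨i, h⟩)).1).1 else 0, ?_, ?_⟩
  · intro i hi
    simp only [hi, dif_pos]
    exact (Ordinal.ToType.toOrd (e (Ordinal.ToType.mk ⟨i, hi⟩)).1).2
  · intro τ hτ
    obtain ⟨b, hb, hle⟩ := hS (Ordinal.ToType.mk ⟨τ, hτ⟩)
    obtain ⟨i, hi⟩ := e.surjective ⟨b, hb⟩
    obtain ⟨i', rfl⟩ := Ordinal.ToType.mk.surjective i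
    refine ⟨i'.1, i'.2, ?_⟩
    have h2 : i'.1 < κ.ord.cof.ord := i'.2
    simp only [h2, dif_pos]
    have h3 : e (Ordinal.ToType.mk ⟨i'.1, h2⟩) = ⟨b, hb⟩ := hi
    rw [h3]
    have h4 : (⟨τ, hτ⟩ : Set.Iio κ.ord) ≤ Ordinal.ToType.mk.symm b := by
      rw [OrderIso.le_symm_apply]
      exact hle
    exact h4

/-- the recursion -/
noncomputable def SEQ_s (c : Ordinal.{0} → Ordinal.{0}) (φ : Cardinal.{0} → Cardinal.{0})
    (i : Ordinal.{0}) : Cardinal.{0} :=
  max ℵ₀ (max (Order.succ (c i).card)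
    (Order.succ (⨆ j : Set.Iio i, max (SEQ_s c φ j.1) (φ (SEQ_s c φ j.1)))))
termination_by i
decreasing_by exact j.2

theorem exists_seq (κ : Cardinal.{0}) (hκ : ℵ₀ ≤ κ) (hsing : κ.ord.cof < κ)
    (φ : Cardinal.{0} → Cardinal.{0}) (hφ : ∀ τ < κ, φ τ < κ) :
    ∃ s : Ordinal.{0} → Cardinal.{0},
      (∀ i < κ.ord.cof.ord, ℵ₀ ≤ s i ∧ s i < κ) ∧
      (∀ i < κ.ord.cof.ord, ∀ j < κ.ord.cof.ord, i < j → s i < s j ∧ φ (s i) ≤ s j) ∧
      (∀ τ < κ, ∃ i < κ.ord.cof.ord, τ < s i) := by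
  obtain ⟨c, hc1, hc2⟩ := SEQ_cofinal κ
  have hlim := SEQ_limit hκ hsing
  have h0 : ℵ₀ < κ := by
    rcases hκ.lt_or_eq with h | h
    · exact h
    · exfalso
      rw [← h, Cardinal.isRegular_aleph0.cof_ord] at hsing
      exact lt_irrefl _ hsing
  have hlt : ∀ i, i < κ.ord.cof.ord → SEQ_s c φ i < κ := by
    intro i
    induction i using WellFoundedLT.induction with
    | ind i IH =>
      intro hi
      rw [SEQ_s]
      refine max_lt h0 (max_lt (hlim _ ?_) (hlim _ ?_))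
      · exact Cardinal.lt_ord.mp (hc1 i hi)
      · apply Cardinal.lift_iSup_lt_of_lt_cof_ord
        · have h1 : i.card < κ.ord.cof := Cardinal.lt_ord.mp hi
          have h2 : Cardinal.lift.{1, 0} i.card < Cardinal.lift.{1, 0} κ.ord.cof :=
            Cardinal.lift_lt.mpr h1
          rw [Ordinal.lift_cof] at h2
          rw [Cardinal.mk_Iio_ordinal]
          simpa using h2
        · rintro ⟨j, hj⟩
          exact max_lt (IH j hj (hj.trans hi)) (hφ _ (IH j hj (hj.trans hi)))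
  refine ⟨SEQ_s c φ, fun i hi => ⟨?_, hlt i hi⟩, fun i _ j _ hij => ?_, fun τ hτ => ?_⟩
  · rw [SEQ_s]; exact le_max_left _ _
  · have h1 : max (SEQ_s c φ i) (φ (SEQ_s c φ i)) ≤
        ⨆ k : Set.Iio j, max (SEQ_s c φ k.1) (φ (SEQ_s c φ k.1)) :=
      le_ciSup (f := fun k : Set.Iio j => max (SEQ_s c φ k.1) (φ (SEQ_s c φ k.1)))
        Cardinal.bddAbove_of_small ⟨i, hij⟩
    have h2 : Order.succ (⨆ k : Set.Iio j, max (SEQ_s c φ k.1) (φ (SEQ_s c φ k.1))) ≤
        SEQ_s c φ j := by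
      conv_rhs => rw [SEQ_s]
      exact (le_max_right _ _).trans (le_max_right _ _)
    have h3 := lt_of_le_of_lt h1 (lt_of_lt_of_le (Order.lt_succ _) h2)
    exact ⟨lt_of_le_of_lt (le_max_left _ _) h3, (le_max_right _ _).trans h3.le⟩
  · obtain ⟨i, hi, h1⟩ := hc2 τ.ord (Cardinal.ord_lt_ord.mpr hτ)
    refine ⟨i, hi, ?_⟩
    have h2 : τ ≤ (c i).card := by
      rw [← Cardinal.card_ord τ]
      exact Ordinal.card_le_card h1
    have h3 : Order.succ (c i).card ≤ SEQ_s c φ i := by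
      rw [SEQ_s]
      exact (le_max_left _ _).trans (le_max_right _ _)
    exact lt_of_le_of_lt h2 (lt_of_lt_of_le (Order.lt_succ _) h3)

end Pool.H58.AE
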