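import Pool.Agent.H58.AE.PWA

set_option autoImplicit false

/-!
MODULE SUB.  Subadditivity of the walk function (Todorcevic).
Write `ρ(α, β) = pw C hh β α`, so `ρ(α, α) = 0` (`pw_of_le`).
Prove by strong induction on `γ < Θ`, for all `α ≤ β ≤ γ`:
  (i)  `ρ(α, γ) ≤ max (ρ(α, β)) (ρ(β, γ))`,   (ii) `ρ(α, β) ≤ max (ρ(α, γ)) (ρ(β, γ))`.
The cases `α = β` and `β = γ` are trivial; let `α < β < γ`.  By `pw_le_iff` (with `b = ρ(α, γ)`):
  `hh (rk (C γ) α) ≤ ρ(α, γ)`, `ρ(α, γ_α) ≤ ρ(α, γ)` with `γ_α = nx (C γ) α`,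
  `ρ(ξ, α) ≤ ρ(α, γ)` for `ξ ∈ EE (C γ) α`; the same for `β`.
Induction is used for the tops `β < γ` and `γ_α < γ`.

CASE 1: no element of `C γ` in `[α, β)`.  Then `γ_α = γ_β =: γ₁ ≥ β`, `rk (C γ) α = rk (C γ) β`
(`rk_gap`), and `EE (C γ) α ⊆ EE (C γ) β` (an accumulation point `η` of `C γ` with `α < η ≤ β` would
give an element of `C γ` in `(α, η) ⊆ [α, β)`).
 (i) with `pw_le_iff`: `hh (rk α) = hh (rk β) ≤ ρ(β, γ)`;
     `ρ(α, γ₁) ≤ max (ρ(α, β)) (ρ(β, γ₁))` by (i) at top `γ₁`, and `ρ(β, γ₁) ≤ ρ(β, γ)`;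
     for `ξ ∈ EE (C γ) α`: `ρ(ξ, α) ≤ max (ρ(ξ, β)) (ρ(α, β))` by (ii) at top `β` for `ξ ≤ α ≤ β`,
     and `ρ(ξ, β) ≤ ρ(β, γ)` as `ξ ∈ EE (C γ) β`.
 (ii) `ρ(α, β) ≤ max (ρ(α, γ₁)) (ρ(β, γ₁))` by (ii) at top `γ₁`.

CASE 2: `C γ` meets `[α, β)`; then `γ_α = nx (C γ) α < β`, `γ_α ∈ C γ`.
 CASE 2a: no accumulation point `η` of `C γ` with `γ_α < η ≤ β`.  Then `γ_α ∈ EE (C γ) β`, so
 `ρ(γ_α, β) ≤ ρ(β, γ)`.
  (ii) `ρ(α, β) ≤ max (ρ(α, γ_α)) (ρ(γ_α, β))` by (i) at top `β`; and `ρ(α, γ_α) ≤ ρ(α, γ)`.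
  (i) `hh (rk α) ≤ hh (rk β) ≤ ρ(β, γ)` (hmono, `rk_mono`, `hW.rkl`);
      `ρ(α, γ_α) ≤ max (ρ(α, β)) (ρ(γ_α, β))` by (ii) at top `β` for `α ≤ γ_α ≤ β`;
      for `ξ ∈ EE (C γ) α`: `ξ ∈ EE (C γ) β`, because an accumulation point `η ∈ (α, β]` is not
      `> γ_α` (case 2a), and for `η ≤ γ_α` there would be an element of `C γ` in
      `(α, η) ⊆ [α, γ_α)` against `nx_le`; so
      `ρ(ξ, α) ≤ max (ρ(ξ, β)) (ρ(α, β)) ≤ max (ρ(β, γ)) (ρ(α, β))` by (ii) at top `β`.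
 CASE 2b: there is an accumulation point in `(γ_α, β]`.  Let `L` be the largest accumulation point
 of `C γ` which is `≤ β` (the `sSup` of the set of accumulation points `≤ β` is one of them), so
 `α ≤ γ_α < L ≤ β < γ`.  By `pw_coh`: `ρ(α, L) = ρ(α, γ)`.  If `L = β`, both claims are clear.
 If `L < β`: `L ∈ C γ` (`hW.closed`), `L ∈ EE (C γ) β` (no accumulation point in `(L, β]`), so
 `ρ(L, β) ≤ ρ(β, γ)`.
  (ii) `ρ(α, β) ≤ max (ρ(α, L)) (ρ(L, β))` by (i) at top `β`.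
  (i)  `ρ(α, L) ≤ max (ρ(α, β)) (ρ(L, β))` by (ii) at top `β`.
-/

namespace Pool.H58.AE

open Cardinal Ordinal Set

theorem SUB_last {C : Set Ordinal.{0}} {η₀ β : Ordinal.{0}} (h0 : Acc C η₀) (h0β : η₀ ≤ β) :
    ∃ L, Acc C L ∧ η₀ ≤ L ∧ L ≤ β ∧ ∀ η, Acc C η → ¬ (L < η ∧ η ≤ β) := by
  have hbdd : BddAbove {η | Acc C η ∧ η ≤ β} := ⟨β, fun x hx => hx.2⟩
  have hne : ({η | Acc C η ∧ η ≤ β} : Set Ordinal.{0}).Nonempty := ⟨η₀, h0, h0β⟩
  have hle : η₀ ≤ sSup {η | Acc C η ∧ η ≤ β} := le_csSup hbdd ⟨h0, h0β⟩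
  refine ⟨sSup {η | Acc C η ∧ η ≤ β}, ⟨?_, ?_⟩, hle, csSup_le hne fun x hx => hx.2, ?_⟩
  · intro h
    rw [h] at hle
    exact h0.1 (le_antisymm hle (zero_le))
  · intro a ha
    obtain ⟨η, hη, haη⟩ := exists_lt_of_lt_csSup hne ha
    obtain ⟨b, hb, h1, h2⟩ := hη.1.2 a haη
    exact ⟨b, hb, h1, h2.trans_le (le_csSup hbdd hη)⟩
  · rintro η hη ⟨h1, h2⟩
    exact absurd (le_csSup hbdd ⟨hη, h2⟩) (not_le.2 h1)

theorem sub_both {C : Ordinal.{0} → Set Ordinal.{0}} {Θ lam : Ordinal.{0}} (hW : Walk C Θ lam)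
    (hh : Ordinal.{0} → Ordinal.{0}) (hmono : ∀ ξ < lam, ∀ η < lam, ξ ≤ η → hh ξ ≤ hh η) :
    ∀ γ < Θ, ∀ α β : Ordinal.{0}, α ≤ β → β ≤ γ →
      pw C hh γ α ≤ max (pw C hh β α) (pw C hh γ β) ∧
      pw C hh β α ≤ max (pw C hh γ α) (pw C hh γ β) := by
  intro γ
  induction γ using WellFoundedLT.induction with
  | _ γ ih =>
  intro hγ α β hαβ hβγ
  rcases hαβ.eq_or_lt with rfl | hαβ'
  · exact ⟨le_max_right _ _, by rw [pw_of_le C hh le_rfl]; exact zero_le⟩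
  rcases hβγ.eq_or_lt with rfl | hβγ'
  · exact ⟨le_max_left _ _, le_max_left _ _⟩
  have hβ : β < Θ := hβγ'.trans hγ
  have hαγ : α < γ := hαβ'.trans hβγ'
  have ihβ := ih β hβγ' hβ
  obtain ⟨ga1, ga2, ga3⟩ := nx_mem hW hγ hαγ
  have ihg := ih _ ga3 (ga3.trans hγ)
  obtain ⟨A1, A2, A3⟩ := (pw_le_iff hW hh hγ hαγ _).1 (le_refl (pw C hh γ α))
  obtain ⟨B1, B2, B3⟩ := (pw_le_iff hW hh hγ hβγ' _).1 (le_refl (pw C hh γ β))
  by_cases hgap : ∃ b ∈ C γ, α ≤ b ∧ b < β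
  · -- CASE 2
    obtain ⟨b0, hb0, hb1, hb2⟩ := hgap
    have hgβ : nx (C γ) α < β := (nx_le hb0 hb1).trans_lt hb2
    by_cases hacc : ∃ η, Acc (C γ) η ∧ nx (C γ) α < η ∧ η ≤ β
    · -- CASE 2b
      obtain ⟨η₀, h01, h02, h03⟩ := hacc
      obtain ⟨L, L1, L2, L3, L4⟩ := SUB_last h01 h03
      have hαL : α < L := ga2.trans_lt (h02.trans_le L2)
      have hcoh : pw C hh L α = pw C hh γ α :=
        pw_coh hW hh hγ (L3.trans_lt hβγ') L1 hαL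
      rcases L3.eq_or_lt with rfl | hLβ
      · rw [hcoh]
        exact ⟨le_max_left _ _, le_max_left _ _⟩
      · have hLC : L ∈ C γ := hW.closed γ hγ L (hLβ.trans hβγ') L1
        have hLE : L ∈ EE (C γ) β := ⟨hLC, hLβ, L4⟩
        have hL := B3 L hLE
        obtain ⟨i1, i2⟩ := ihβ α L hαL.le hLβ.le
        rw [hcoh] at i1 i2
        exact ⟨i2.trans (max_le_max le_rfl hL), i1.trans (max_le_max le_rfl hL)⟩
    · -- CASE 2a
      have hgE : nx (C γ) α ∈ EE (C γ) β :=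
        ⟨ga1, hgβ, fun η h1 h2 => hacc ⟨η, h1, h2⟩⟩
      have hg := B3 _ hgE
      obtain ⟨i1, i2⟩ := ihβ α _ ga2 hgβ.le
      refine ⟨?_, ?_⟩
      · rw [pw_le_iff hW hh hγ hαγ]
        refine ⟨?_, ?_, ?_⟩
        · refine le_trans ?_ (le_max_right _ _)
          refine le_trans ?_ B1
          exact hmono _ (hW.rkl γ hγ α hαγ) _ (hW.rkl γ hγ β hβγ') (rk_mono _ hαβ)
        · exact i2.trans (max_le_max le_rfl hg)
        · intro ξ hξ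
          obtain ⟨x1, x2, x3⟩ := hξ
          have hξE : ξ ∈ EE (C γ) β := by
            refine ⟨x1, x2.trans hαβ', ?_⟩
            rintro η hη ⟨e1, e2⟩
            have e3 : α < η := by
              by_contra h
              exact x3 η hη ⟨e1, not_lt.1 h⟩
            have e4 : η ≤ nx (C γ) α := by
              by_contra h
              exact hacc ⟨η, hη, not_le.1 h, e2⟩
            obtain ⟨b, hb, hb3, hb4⟩ := hη.2 α e3
            exact absurd (nx_le hb hb3.le) (not_le.2 (hb4.trans_le e4))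
          obtain ⟨j1, j2⟩ := ihβ ξ α x2.le hαβ
          refine j2.trans ?_
          refine max_le ?_ (le_max_left _ _)
          exact (B3 ξ hξE).trans (le_max_right _ _)
      · exact i1.trans (max_le_max A2 hg)
  · -- CASE 1
    have hgap' : ∀ b ∈ C γ, α ≤ b → β ≤ b := by
      intro b hb h1
      by_contra h
      exact hgap ⟨b, hb, h1, not_le.1 h⟩
    have hg1 : β ≤ nx (C γ) α := hgap' _ ga1 ga2
    obtain ⟨gb1, gb2, gb3⟩ := nx_mem hW hγ hβγ'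
    have hnx : nx (C γ) α = nx (C γ) β :=
      le_antisymm (nx_le gb1 (hαβ.trans gb2)) (nx_le ga1 hg1)
    have hrk : rk (C γ) α = rk (C γ) β := by
      refine rk_gap hαβ ?_
      intro ξ hξ h1
      by_contra h
      exact absurd (hgap' ξ hξ (not_lt.1 h)) (not_le.2 h1)
    rw [← hnx] at B2
    obtain ⟨i1, i2⟩ := ihg α β hαβ hg1
    refine ⟨?_, ?_⟩
    · rw [pw_le_iff hW hh hγ hαγ]
      refine ⟨?_, ?_, ?_⟩
      · rw [hrk]
        exact B1.trans (le_max_right _ _)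
      · exact i1.trans (max_le_max le_rfl B2)
      · intro ξ hξ
        obtain ⟨x1, x2, x3⟩ := hξ
        have hξE : ξ ∈ EE (C γ) β := by
          refine ⟨x1, x2.trans hαβ', ?_⟩
          rintro η hη ⟨e1, e2⟩
          have e3 : α < η := by
            by_contra h
            exact x3 η hη ⟨e1, not_lt.1 h⟩
          obtain ⟨b, hb, hb3, hb4⟩ := hη.2 α e3
          exact absurd (hgap' b hb hb3.le) (not_le.2 (hb4.trans_le e2))
        obtain ⟨j1, j2⟩ := ihβ ξ α x2.le hαβ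
        refine j2.trans ?_
        refine max_le ?_ (le_max_left _ _)
        exact (B3 ξ hξE).trans (le_max_right _ _)
    · exact i2.trans (max_le_max A2 B2)

end Pool.H58.AE
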